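import Mathlib

/-!
Module AMP (about 100 lines): exponential Markov amplification.

G1, G0 finite sets of the same size M (M > 0 since a < b ≤ M), V a predicate, a = #{g ∈ G1 : V g} < b = #{g ∈ G0 : V g}.
t = 1 + 1/M, P = M - a + a t, C = M - b + b / t (real numbers); P C < M^2: indeed P = M + a/M, C = M - b/(M+1)
 (because 1 - 1/t = 1/(M+1)), so P C = M^2 + a - bM/(M+1) - a b/(M (M+1)) ≤ M^2 + (a (M+1) - b M)/(M+1) and
 a (M+1) - b M ≤ a - M < 0 as b ≥ a+1 and a < b ≤ M; C > 0.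
r = sqrt (P C) / M, 0 < r < 1.
Sum over w ∈ piFinset (fun _ => G1) of t^{#{i : V (w i)}} = P^d (Finset.prod_univ_sum, t^{#..} = ∏ i, if V (w i) then t else 1).
Markov: #{w ∈ G1^d : m ≤ #V} * t^m ≤ P^d.
Likewise Σ over G0^d of (1/t)^{#V} = C^d and #{w ∈ G0^d : #V < m} * (1/t)^{m-1} ≤ C^d for m ≥ 1 (for m = 0 this set is empty).
m0 = Nat.find of t^m * (r M)^d ≥ P^d (exists since t > 1).  First set: card ≤ P^d / t^m0 ≤ (r M)^d.
Second (m0 ≥ 1): t^(m0-1) (r M)^d < P^d, card ≤ C^d t^(m0-1) ≤ C^d P^d / (r M)^d = (r M)^d since (r M)^2 = P C.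
-/

set_option autoImplicit false

namespace Pool.Agent.H4.FP

/-- generating function of the number of coordinates in `V` -/
theorem amp_sum {β : Type} [DecidableEq β] (G : Finset β) (V : β → Prop) [DecidablePred V]
    (d : ℕ) (s : ℝ) :
    ∑ w ∈ Fintype.piFinset (fun _ : Fin d => G), s ^ (Finset.univ.filter (fun i => V (w i))).card =
      (((G.filter V).card : ℝ) * s + ((G.card : ℝ) - ((G.filter V).card : ℝ))) ^ d := by
  have h1 : ∑ g ∈ G, (if V g then s else 1) =
      ((G.filter V).card : ℝ) * s + ((G.card : ℝ) - ((G.filter V).card : ℝ)) := by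
    rw [Finset.sum_ite, Finset.sum_const, Finset.sum_const, nsmul_eq_mul, nsmul_eq_mul, mul_one]
    have h2 := Finset.card_filter_add_card_filter_not (s := G) V
    have h3 : ((G.filter V).card : ℝ) + ((G.filter (fun g => ¬ V g)).card : ℝ) = G.card := by
      exact_mod_cast h2
    linarith
  rw [← h1]
  have h4 := Finset.prod_univ_sum (fun _ : Fin d => G) (fun _ g => if V g then s else (1 : ℝ))
  rw [Finset.prod_const, Finset.card_univ, Fintype.card_fin] at h4
  rw [h4]
  refine Finset.sum_congr rfl fun w _ => ?_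
  rw [Finset.prod_ite, Finset.prod_const, Finset.prod_const_one, mul_one]

theorem amplify {β : Type} [DecidableEq β] (G1 G0 : Finset β) (V : β → Prop) [DecidablePred V]
    (hcard : G1.card = G0.card) (hlt : (G1.filter V).card < (G0.filter V).card) :
    ∃ r : ℝ, 0 < r ∧ r < 1 ∧ ∀ d : ℕ, ∃ m : ℕ,
      (((Fintype.piFinset fun _ : Fin d => G1).filter
        (fun w => m ≤ (Finset.univ.filter (fun i => V (w i))).card)).card : ℝ)
          ≤ r ^ d * (G1.card : ℝ) ^ d ∧
      (((Fintype.piFinset fun _ : Fin d => G0).filter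
        (fun w => (Finset.univ.filter (fun i => V (w i))).card < m)).card : ℝ)
          ≤ r ^ d * (G1.card : ℝ) ^ d := by
  obtain ⟨a, ha⟩ : ∃ a : ℕ, a = (G1.filter V).card := ⟨_, rfl⟩
  obtain ⟨b, hb⟩ : ∃ b : ℕ, b = (G0.filter V).card := ⟨_, rfl⟩
  obtain ⟨M, hM⟩ : ∃ M : ℕ, M = G1.card := ⟨_, rfl⟩
  have hab : a < b := by rw [ha, hb]; exact hlt
  have hbM : b ≤ M := by rw [hb, hM, hcard]; exact Finset.card_filter_le _ _
  have hM0 : 0 < M := by omega
  have hMr : (0 : ℝ) < M := by exact_mod_cast hM0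
  have habr : (a : ℝ) + 1 ≤ b := by exact_mod_cast hab
  have hbMr : (b : ℝ) ≤ M := by exact_mod_cast hbM
  have ha0 : (0 : ℝ) ≤ a := Nat.cast_nonneg a
  have hb0 : (0 : ℝ) ≤ b := Nat.cast_nonneg b
  obtain ⟨t, ht⟩ : ∃ t : ℝ, t = 1 + 1 / M := ⟨_, rfl⟩
  have ht1 : 1 < t := by rw [ht]; have : (0 : ℝ) < 1 / M := by positivity
                         linarith
  have ht0 : 0 < t := by linarith
  obtain ⟨P, hP⟩ : ∃ P : ℝ, P = a * t + (M - a) := ⟨_, rfl⟩
  obtain ⟨C, hC⟩ : ∃ C : ℝ, C = b * t⁻¹ + (M - b) := ⟨_, rfl⟩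
  have hP' : P = M + a / M := by rw [hP, ht]; field_simp; ring
  have hC' : C = M - b / (M + 1) := by
    rw [hC, ht]
    have : (M : ℝ) + 1 ≠ 0 := by positivity
    field_simp
    ring
  have hP0 : 0 < P := by rw [hP']; positivity
  have hC0 : 0 < C := by
    rw [hC']
    have : (b : ℝ) / (M + 1) < M := by
      rw [div_lt_iff₀ (by positivity)]
      nlinarith
    linarith
  have hPC : P * C < M ^ 2 := by
    rw [hP', hC']
    have h1 : ((M : ℝ) + a / M) * (M - b / (M + 1)) =
        M ^ 2 - (M * (b * M - a * (M + 1)) + a * b) / (M * (M + 1)) := by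
      field_simp
      ring
    rw [h1]
    have h2 : 0 < (M * (b * M - a * (M + 1)) + a * b : ℝ) / (M * (M + 1)) := by
      apply div_pos _ (by positivity)
      have h3 : (0 : ℝ) < b * M - a * (M + 1) := by nlinarith
      positivity
    linarith
  obtain ⟨r, hr⟩ : ∃ r : ℝ, r = Real.sqrt (P * C) / M := ⟨_, rfl⟩
  have hrM : (r * M) ^ 2 = P * C := by
    rw [hr, div_mul_cancel₀ _ hMr.ne', Real.sq_sqrt (by positivity)]
  have hr0 : 0 < r := by rw [hr]; positivity
  have hr1 : r < 1 := by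
    by_contra h
    push Not at h
    have h1 : (M : ℝ) ≤ r * M := by nlinarith
    have h2 : (M : ℝ) ^ 2 ≤ (r * M) ^ 2 := pow_le_pow_left₀ hMr.le h1 2
    linarith
  refine ⟨r, hr0, hr1, fun d => ?_⟩
  rw [← hM, ← mul_pow]
  have hQ : 0 < (r * M) ^ d := by positivity
  have hex : ∃ m : ℕ, P ^ d ≤ t ^ m * (r * M) ^ d := by
    obtain ⟨m, hm⟩ := pow_unbounded_of_one_lt (P ^ d / (r * M) ^ d) ht1
    exact ⟨m, by rw [div_lt_iff₀ hQ] at hm; exact hm.le⟩
  classical
  obtain ⟨m, hm1, hm2⟩ : ∃ m : ℕ, P ^ d ≤ t ^ m * (r * M) ^ d ∧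
      ∀ m' < m, t ^ m' * (r * M) ^ d < P ^ d :=
    ⟨Nat.find hex, Nat.find_spec hex, fun m' hm' => not_le.mp (Nat.find_min hex hm')⟩
  refine ⟨m, ?_, ?_⟩
  · have h1 := amp_sum G1 V d t
    rw [← ha, ← hM, ← hP] at h1
    have h2 : (((Fintype.piFinset fun _ : Fin d => G1).filter
        (fun w => m ≤ (Finset.univ.filter (fun i => V (w i))).card)).card : ℝ) * t ^ m ≤ P ^ d := by
      rw [← h1, ← nsmul_eq_mul, ← Finset.sum_const]
      refine le_trans (Finset.sum_le_sum fun w hw => ?_)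
        (Finset.sum_le_sum_of_subset_of_nonneg (Finset.filter_subset _ _)
          fun w _ _ => (pow_pos ht0 _).le)
      exact pow_le_pow_right₀ ht1.le (Finset.mem_filter.mp hw).2
    have h3 := h2.trans hm1
    rw [mul_comm (t ^ m)] at h3
    exact le_of_mul_le_mul_right h3 (pow_pos ht0 m)
  · rcases Nat.eq_zero_or_pos m with h0 | hpos
    · subst h0
      simp only [Nat.not_lt_zero, Finset.filter_false, Finset.card_empty, Nat.cast_zero]
      exact hQ.le
    · have h1 := amp_sum G0 V d t⁻¹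
      rw [← hb, ← hcard, ← hM, ← hC] at h1
      have hti : 0 < t⁻¹ := inv_pos.mpr ht0
      have h2 : (((Fintype.piFinset fun _ : Fin d => G0).filter
          (fun w => (Finset.univ.filter (fun i => V (w i))).card < m)).card : ℝ) *
            t⁻¹ ^ (m - 1) ≤ C ^ d := by
        rw [← h1, ← nsmul_eq_mul, ← Finset.sum_const]
        refine le_trans (Finset.sum_le_sum fun w hw => ?_)
          (Finset.sum_le_sum_of_subset_of_nonneg (Finset.filter_subset _ _)
            fun w _ _ => (pow_pos hti _).le)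
        have h3 := (Finset.mem_filter.mp hw).2
        exact pow_le_pow_of_le_one hti.le (inv_le_one_of_one_le₀ ht1.le) (by omega)
      have h4 := hm2 (m - 1) (by omega)
      have h5 : C ^ d * t ^ (m - 1) * (r * M) ^ d ≤ (r * M) ^ d * (r * M) ^ d := by
        have h6 : (r * M) ^ d * (r * M) ^ d = C ^ d * P ^ d := by
          rw [← mul_pow, ← mul_pow, ← sq, hrM, mul_comm]
        rw [h6, mul_assoc]
        exact mul_le_mul_of_nonneg_left h4.le (by positivity)
      have h7 : C ^ d * t ^ (m - 1) ≤ (r * M) ^ d := le_of_mul_le_mul_right h5 hQ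
      rw [inv_pow, ← div_eq_mul_inv, div_le_iff₀ (pow_pos ht0 _)] at h2
      exact h2.trans h7

end Pool.Agent.H4.FP
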