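import Mathlib

/-!
Module ASY (about 60 lines): the parameters.
With d = 1 + κ M, κ ≤ d, Q = 3 d (d+κ) ≤ 6 d^2.  All four inequalities hold for d large:
6 d^2 ≤ 2^(d-1);  (6d^2 + 8*36 d^4) 4 r^d M < 1 (tendsto_pow_const_mul_const_pow_of_abs_lt_one);
24 d^2 M < 2^(3d-1);  24 d^2 + 2 ≤ 2^(3d).  Take eventually-filters along d → ∞ and κ with d ≥ κ + 1.
-/

set_option autoImplicit false

namespace Pool.Agent.H4.FP

open Filter in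
theorem exists_sq_lt (A : ℝ) : ∀ᶠ d : ℕ in atTop, A * (d : ℝ) ^ 2 < 2 ^ d := by
  have h := (tendsto_pow_const_mul_const_pow_of_abs_lt_one 2 (r := (1 / 2 : ℝ))
    (by rw [abs_of_pos] <;> norm_num)).const_mul A
  rw [mul_zero] at h
  filter_upwards [h.eventually (gt_mem_nhds (show (0:ℝ) < 1 by norm_num))] with d hd
  have h2 : (0:ℝ) < 2 ^ d := by positivity
  have h3 : A * ((d:ℝ) ^ 2 * (1 / 2) ^ d) * 2 ^ d = A * (d:ℝ) ^ 2 := by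
    have : ((1:ℝ) / 2) ^ d * 2 ^ d = 1 := by rw [← mul_pow]; norm_num
    linear_combination A * (d:ℝ) ^ 2 * this
  rw [← h3]
  calc A * ((d:ℝ) ^ 2 * (1 / 2) ^ d) * 2 ^ d < 1 * 2 ^ d := by
        exact mul_lt_mul_of_pos_right hd h2
    _ = 2 ^ d := one_mul _

open Filter in
theorem exists_params (M : ℕ) (hM : 0 < M) (r : ℝ) (hr0 : 0 < r) (hr1 : r < 1) :
    ∃ κ : ℕ, ∀ d Q : ℕ, d = 1 + κ * M → Q = 3 * d * (d + κ) →
      Q ≤ 2 ^ (d - 1) ∧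
      ((Q : ℝ) + 8 * (Q : ℝ) ^ 2) * (4 * r ^ d) * (M : ℝ) < 1 ∧
      4 * Q * M < 2 ^ (3 * d - 1) ∧
      4 * Q + 2 ≤ 2 ^ (3 * d) := by
  have hr : |r| < 1 := by rw [abs_of_pos hr0]; exact hr1
  have e2 : ∀ᶠ d : ℕ in atTop, (24 * (M:ℝ)) * ((d:ℝ) ^ 2 * r ^ d) < 1 / 2 := by
    have h := (tendsto_pow_const_mul_const_pow_of_abs_lt_one 2 hr).const_mul (24 * (M:ℝ))
    rw [mul_zero] at h
    exact h.eventually (gt_mem_nhds (by norm_num))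
  have e3 : ∀ᶠ d : ℕ in atTop, (1152 * (M:ℝ)) * ((d:ℝ) ^ 4 * r ^ d) < 1 / 2 := by
    have h := (tendsto_pow_const_mul_const_pow_of_abs_lt_one 4 hr).const_mul (1152 * (M:ℝ))
    rw [mul_zero] at h
    exact h.eventually (gt_mem_nhds (by norm_num))
  obtain ⟨D, hD⟩ := eventually_atTop.1 ((exists_sq_lt 26).and ((exists_sq_lt (48 * M)).and (e2.and e3)))
  refine ⟨D, fun d Q hd hQ => ?_⟩
  have hdD : D ≤ d := by
    rw [hd]; nlinarith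
  have hd1 : 1 ≤ d := by rw [hd]; omega
  have hQ6 : Q ≤ 6 * d ^ 2 := by
    rw [hQ]; nlinarith
  obtain ⟨h26, h48, h2, h3⟩ := hD d hdD
  have g26 : 26 * d ^ 2 < 2 ^ d := by exact_mod_cast h26
  have g48 : 48 * M * d ^ 2 < 2 ^ d := by exact_mod_cast h48
  have hpow : 2 ^ d ≤ 2 ^ (3 * d) := Nat.pow_le_pow_right (by norm_num) (by omega)
  have hsplit : 2 ^ d = 2 * 2 ^ (d - 1) := by
    rw [← pow_succ']; congr 1; omega
  have hsplit3 : 2 ^ (3 * d) = 2 * 2 ^ (3 * d - 1) := by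
    rw [← pow_succ']; congr 1; omega
  have hdsq : 1 ≤ d ^ 2 := Nat.one_le_pow _ _ hd1
  refine ⟨by omega, ?_, ?_, by omega⟩
  · have hQr : (Q:ℝ) ≤ 6 * (d:ℝ) ^ 2 := by exact_mod_cast hQ6
    have hQ0 : (0:ℝ) ≤ Q := Nat.cast_nonneg _
    have hQ2 : (Q:ℝ) ^ 2 ≤ 36 * (d:ℝ) ^ 4 := by
      calc (Q:ℝ) ^ 2 ≤ (6 * (d:ℝ) ^ 2) ^ 2 := pow_le_pow_left₀ hQ0 hQr 2
        _ = 36 * (d:ℝ) ^ 4 := by ring
    have hrd : (0:ℝ) < r ^ d := pow_pos hr0 d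
    have hMr : (0:ℝ) < M := by exact_mod_cast hM
    have hk : (0:ℝ) ≤ 4 * r ^ d * M := by positivity
    calc ((Q : ℝ) + 8 * (Q : ℝ) ^ 2) * (4 * r ^ d) * (M : ℝ)
        = ((Q : ℝ) + 8 * (Q : ℝ) ^ 2) * (4 * r ^ d * M) := by ring
      _ ≤ (6 * (d:ℝ) ^ 2 + 8 * (36 * (d:ℝ) ^ 4)) * (4 * r ^ d * M) := by
          apply mul_le_mul_of_nonneg_right _ hk
          linarith
      _ = (24 * (M:ℝ)) * ((d:ℝ) ^ 2 * r ^ d) + (1152 * (M:ℝ)) * ((d:ℝ) ^ 4 * r ^ d) := by ring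
      _ < 1 := by linarith
  · have : 4 * Q * M ≤ 24 * M * d ^ 2 := by
      calc 4 * Q * M ≤ 4 * (6 * d ^ 2) * M := by gcongr
        _ = 24 * M * d ^ 2 := by ring
    have h5 : 2 * (24 * M * d ^ 2) = 48 * M * d ^ 2 := by ring
    omega

end Pool.Agent.H4.FP
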