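import Pool.Agent.H4.FP.Defs

/-!
Module RED (about 80 lines): merging inseparable points.
Proof: R = the points x of U = A.sup id such that no y in U with y < x has (∀ Z ∈ A, y ∈ Z ↔ x ∈ Z).
Every y in U has a least point of its class, which is in R.  Z ↦ Z ∩ R is injective on A: if Z ∩ R = Z' ∩ R
and y ∈ Z, take x in R in the class of y: x ∈ Z so x ∈ Z', so y ∈ Z'.  (X ∪ Y) ∩ R = (X ∩ R) ∪ (Y ∩ R).
sup of the image is R: each x in R lies in a member.  Separation: x ≠ y in R, say y < x (else swap); as x ∈ R, y and x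
are not in the same class, so a member Z contains exactly one of them, and Z ∩ R too.
-/

set_option autoImplicit false

namespace Pool.Agent.H4.FP

theorem RED_mem_sup (A : Finset (Finset ℕ)) (x : ℕ) : x ∈ A.sup id ↔ ∃ Z ∈ A, x ∈ Z := by
  rw [Finset.mem_sup]
  rfl

theorem exists_reduction (A : Finset (Finset ℕ)) (hA : UC A) :
    ∃ R : Finset ℕ, R ⊆ A.sup id ∧
      (∀ Z ∈ A, ∀ Z' ∈ A, Z ∩ R = Z' ∩ R → Z = Z') ∧
      (∀ y ∈ A.sup id, ∃ x ∈ R, ∀ Z ∈ A, (y ∈ Z ↔ x ∈ Z)) ∧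
      (A.image (fun Z => Z ∩ R)).card = A.card ∧
      UC (A.image (fun Z => Z ∩ R)) ∧ Sep (A.image (fun Z => Z ∩ R)) ∧
      (A.image (fun Z => Z ∩ R)).sup id = R ∧
      (∀ x ∈ R, freq (A.image (fun Z => Z ∩ R)) x = freq A x) := by
  classical
  set U := A.sup id with hU
  have hsubU : ∀ Z ∈ A, ∀ y ∈ Z, y ∈ U := fun Z hZ y hy => by
    rw [hU, RED_mem_sup]; exact ⟨Z, hZ, hy⟩
  set R := U.filter (fun x => ∀ y ∈ U, y < x → ¬ ∀ Z ∈ A, (y ∈ Z ↔ x ∈ Z)) with hR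
  have hcls : ∀ y ∈ U, ∃ x ∈ R, ∀ Z ∈ A, (y ∈ Z ↔ x ∈ Z) := by
    intro y hy
    have hne : (U.filter (fun x => ∀ Z ∈ A, (y ∈ Z ↔ x ∈ Z))).Nonempty :=
      ⟨y, Finset.mem_filter.2 ⟨hy, fun Z _ => Iff.rfl⟩⟩
    set x := (U.filter (fun x => ∀ Z ∈ A, (y ∈ Z ↔ x ∈ Z))).min' hne with hx
    have hxm := Finset.min'_mem _ hne
    rw [← hx, Finset.mem_filter] at hxm
    refine ⟨x, Finset.mem_filter.2 ⟨hxm.1, fun y' hy' hlt hcon => ?_⟩, hxm.2⟩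
    have h1 : y' ∈ U.filter (fun x => ∀ Z ∈ A, (y ∈ Z ↔ x ∈ Z)) :=
      Finset.mem_filter.2 ⟨hy', fun Z hZ => (hxm.2 Z hZ).trans (hcon Z hZ).symm⟩
    have h2 := Finset.min'_le _ _ h1
    rw [← hx] at h2
    exact absurd hlt (not_lt.2 h2)
  have hsub : ∀ Z ∈ A, ∀ Z' ∈ A, Z ∩ R = Z' ∩ R → Z ⊆ Z' := by
    intro Z hZ Z' hZ' h y hy
    obtain ⟨x, hxR, hx⟩ := hcls y (hsubU Z hZ y hy)
    have h1 : x ∈ Z ∩ R := Finset.mem_inter.2 ⟨(hx Z hZ).1 hy, hxR⟩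
    rw [h] at h1
    exact (hx Z' hZ').2 (Finset.mem_inter.1 h1).1
  have hinj : ∀ Z ∈ A, ∀ Z' ∈ A, Z ∩ R = Z' ∩ R → Z = Z' := fun Z hZ Z' hZ' h =>
    Finset.Subset.antisymm (hsub Z hZ Z' hZ' h) (hsub Z' hZ' Z hZ h.symm)
  have hsup : (A.image (fun Z => Z ∩ R)).sup id = R := by
    ext x
    rw [RED_mem_sup]
    constructor
    · rintro ⟨Y, hY, hxY⟩
      obtain ⟨Z, _, rfl⟩ := Finset.mem_image.1 hY
      exact (Finset.mem_inter.1 hxY).2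
    · intro hx
      have hxU : x ∈ U := (Finset.mem_filter.1 hx).1
      rw [hU, RED_mem_sup] at hxU
      obtain ⟨Z, hZ, hxZ⟩ := hxU
      exact ⟨Z ∩ R, Finset.mem_image.2 ⟨Z, hZ, rfl⟩, Finset.mem_inter.2 ⟨hxZ, hx⟩⟩
  have hsep : ∀ x ∈ R, ∀ y ∈ R, y < x →
      ∃ S ∈ A.image (fun Z => Z ∩ R), (x ∈ S ∧ y ∉ S) ∨ (y ∈ S ∧ x ∉ S) := by
    intro x hx y hy hlt
    have h1 := (Finset.mem_filter.1 hx).2 y (Finset.mem_filter.1 hy).1 hlt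
    push Not at h1
    obtain ⟨Z, hZ, h2⟩ := h1
    refine ⟨Z ∩ R, Finset.mem_image.2 ⟨Z, hZ, rfl⟩, ?_⟩
    rcases h2 with ⟨h3, h4⟩ | ⟨h3, h4⟩
    · exact Or.inr ⟨Finset.mem_inter.2 ⟨h3, hy⟩, fun h => h4 (Finset.mem_inter.1 h).1⟩
    · exact Or.inl ⟨Finset.mem_inter.2 ⟨h4, hx⟩, fun h => h3 (Finset.mem_inter.1 h).1⟩
  refine ⟨R, Finset.filter_subset _ _, hinj, hcls, ?_, ?_, ?_, hsup, ?_⟩
  · exact Finset.card_image_of_injOn fun Z hZ Z' hZ' h => hinj Z hZ Z' hZ' h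
  · intro X hX Y hY
    obtain ⟨Z, hZ, rfl⟩ := Finset.mem_image.1 hX
    obtain ⟨Z', hZ', rfl⟩ := Finset.mem_image.1 hY
    refine Finset.mem_image.2 ⟨Z ∪ Z', hA Z hZ Z' hZ', ?_⟩
    exact Finset.union_inter_distrib_right Z Z' R
  · intro x hx y hy hne
    rw [hsup] at hx hy
    rcases lt_or_gt_of_ne hne with h | h
    · obtain ⟨S, hS, h1⟩ := hsep y hy x hx h
      exact ⟨S, hS, h1.symm⟩
    · exact hsep x hx y hy h
  · intro x hx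
    unfold freq
    have h1 : (A.image (fun Z => Z ∩ R)).filter (fun S => x ∈ S) =
        (A.filter (fun S => x ∈ S)).image (fun Z => Z ∩ R) := by
      ext S
      rw [Finset.mem_filter, Finset.mem_image, Finset.mem_image]
      constructor
      · rintro ⟨⟨Z, hZ, rfl⟩, h2⟩
        exact ⟨Z, Finset.mem_filter.2 ⟨hZ, (Finset.mem_inter.1 h2).1⟩, rfl⟩
      · rintro ⟨Z, hZ, rfl⟩
        rw [Finset.mem_filter] at hZ
        exact ⟨⟨Z, hZ.1, rfl⟩, Finset.mem_inter.2 ⟨hZ.2, hx⟩⟩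
    rw [h1]
    exact Finset.card_image_of_injOn fun Z hZ Z' hZ' h =>
      hinj Z (Finset.mem_filter.1 hZ).1 Z' (Finset.mem_filter.1 hZ').1 h

end Pool.Agent.H4.FP
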