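import Pool.Agent.H4.FP.Defs
import Pool.Agent.H4.FP.Red

/-!
Module POW (about 60 lines): power sets and the easy implications Poonen → Weak → Frankl.

`freq_powerset`: the members with x and those without are in bijection (insert/erase), or count: filter = powerset of U.erase x, images.
`freq_eq_zero`: x outside the universe.
`poonen_weak`: if A is a power set (U nonempty), every frequency is |A|/2 by `freq_powerset`, hence the sup.  Otherwise
 Poonen gives an x ∈ U with 2 freq > |A|, and freq A x ≤ sup, so 2 sup ≠ |A|.
`weak_frankl` : suppose A union-closed with a nonempty member and 2 freq A x < |A| for all x ∈ U.  Replace A by the reduced family of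
 `exists_reduction` (same cardinality and frequencies, separating, universe R nonempty: the class of a point of a nonempty member).
 Let z be a number not in R (e.g. R.sup id + 1) and C = A ∪ A.image (insert z): union-closed, |C| = 2|A|, freq C z = |A|,
 freq C x = 2 freq A x < |A| for x in R, separating (x,y ∈ R by A; x ∈ R, z: take X ∈ A with x ∉ X, which exists because
 freq A x < |A|, then insert z X contains z and not x), universe R ∪ {z}.
 So 2 sup freq = |C|, and by Weak C is a power set, so freq_powerset gives 2 freq C x = |C| for x in R, contradiction.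
-/

set_option autoImplicit false

namespace Pool.Agent.H4.FP

theorem freq_powerset (U : Finset ℕ) (x : ℕ) (hx : x ∈ U) :
    2 * freq U.powerset x = U.powerset.card := by
  classical
  have h1 : U.powerset.filter (fun S => x ∉ S) = (U.erase x).powerset := by
    ext S
    simp only [Finset.mem_filter, Finset.mem_powerset, Finset.subset_erase]
  have h2 := Finset.card_filter_add_card_filter_not (s := U.powerset) (fun S => x ∈ S)
  have h3 : (U.powerset.filter (fun S => ¬ x ∈ S)).card = 2 ^ (U.card - 1) := by
    rw [h1, Finset.card_powerset, Finset.card_erase_of_mem hx]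
  have h4 : U.powerset.card = 2 * 2 ^ (U.card - 1) := by
    rw [Finset.card_powerset, ← pow_succ', Nat.sub_add_cancel (Finset.card_pos.2 ⟨x, hx⟩)]
  unfold freq
  omega

theorem pow_mem_sup {A : Finset (Finset ℕ)} {x : ℕ} : x ∈ A.sup id ↔ ∃ S ∈ A, x ∈ S := by
  rw [Finset.mem_sup]
  rfl

theorem freq_eq_zero (A : Finset (Finset ℕ)) (x : ℕ) (hx : x ∉ A.sup id) : freq A x = 0 := by
  unfold freq
  rw [Finset.card_eq_zero, Finset.filter_eq_empty_iff]
  intro S hS hxS
  exact hx (pow_mem_sup.2 ⟨S, hS, hxS⟩)

theorem poonen_weak (h : Poonen) : Weak := by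
  intro A hA hU hS hne
  constructor
  · intro h1
    by_contra hcon
    obtain ⟨x, hx, hx2⟩ := h A hA hU hS hcon
    have := Finset.le_sup (f := freq A) hx
    omega
  · intro h1
    obtain ⟨x, hx, hx2⟩ := Finset.exists_mem_eq_sup (A.sup id) hne (freq A)
    rw [hx2]
    have h2 := freq_powerset (A.sup id) x hx
    rwa [← h1] at h2

theorem weak_frankl (h : Weak) : Frankl := by
  classical
  intro A0 hA0 hne
  by_contra hcon
  push Not at hcon
  obtain ⟨R, hRsub, -, hcls, hcard, hUC, hSep, hsup, hfreq⟩ := exists_reduction A0 hA0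
  set A := A0.image (fun Z => Z ∩ R) with hA
  -- R is nonempty
  obtain ⟨X0, hX0, y0, hy0⟩ := hne
  obtain ⟨x0, hx0, -⟩ := hcls y0 (pow_mem_sup.2 ⟨X0, hX0, hy0⟩)
  have hlt : ∀ x ∈ R, 2 * freq A x < A.card := by
    intro x hx
    rw [hfreq x hx, hcard]
    exact hcon x (hRsub hx)
  have hAne : A.Nonempty := ⟨_, Finset.mem_image_of_mem _ hX0⟩
  clear_value A
  have hAsub : ∀ X ∈ A, X ⊆ R := by
    intro X hX
    rw [← hsup]
    exact Finset.le_sup (f := id) hX
  -- a new point
  obtain ⟨z, hz⟩ : ∃ z, z ∉ R := Infinite.exists_notMem_finset R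
  have hzA : ∀ X ∈ A, z ∉ X := fun X hX hzX => hz (hAsub X hX hzX)
  set C := A ∪ A.image (insert z) with hC
  have hdisj : Disjoint A (A.image (insert z)) := by
    rw [Finset.disjoint_left]
    intro X hX hX'
    obtain ⟨Y, hY, rfl⟩ := Finset.mem_image.1 hX'
    exact hzA _ hX (Finset.mem_insert_self z Y)
  have hinj : Set.InjOn (insert z) (A : Set (Finset ℕ)) := by
    intro X hX Y hY hXY
    have h1 : (insert z X).erase z = (insert z Y).erase z := by rw [hXY]
    rwa [Finset.erase_insert (hzA X hX), Finset.erase_insert (hzA Y hY)] at h1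
  have hCcard : C.card = 2 * A.card := by
    rw [hC, Finset.card_union_of_disjoint hdisj, Finset.card_image_of_injOn hinj, two_mul]
  have hCUC : UC C := by
    intro X hX Y hY
    rw [hC, Finset.mem_union, Finset.mem_image] at hX hY ⊢
    rcases hX with hX | ⟨X, hX, rfl⟩ <;> rcases hY with hY | ⟨Y, hY, rfl⟩
    · exact Or.inl (hUC X hX Y hY)
    · exact Or.inr ⟨X ∪ Y, hUC X hX Y hY, by rw [Finset.union_insert]⟩
    · exact Or.inr ⟨X ∪ Y, hUC X hX Y hY, by rw [Finset.insert_union]⟩
    · refine Or.inr ⟨X ∪ Y, hUC X hX Y hY, ?_⟩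
      rw [Finset.insert_union, Finset.union_insert, Finset.insert_idem]
  have hCsup : C.sup id = insert z R := by
    ext x
    rw [pow_mem_sup, Finset.mem_insert]
    constructor
    · rintro ⟨S, hS, hxS⟩
      rw [hC, Finset.mem_union, Finset.mem_image] at hS
      rcases hS with hS | ⟨S, hS, rfl⟩
      · exact Or.inr (hAsub S hS hxS)
      · rcases Finset.mem_insert.1 hxS with h1 | h1
        · exact Or.inl h1
        · exact Or.inr (hAsub S hS h1)
    · rintro (rfl | hx)
      · obtain ⟨X, hX⟩ := hAne
        exact ⟨insert x X, Finset.mem_union_right _ (Finset.mem_image_of_mem _ hX),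
          Finset.mem_insert_self _ _⟩
      · rw [← hsup, pow_mem_sup] at hx
        obtain ⟨S, hS, hxS⟩ := hx
        exact ⟨S, Finset.mem_union_left _ hS, hxS⟩
  have hfz : freq C z = A.card := by
    unfold freq
    rw [hC, Finset.filter_union, Finset.filter_false_of_mem hzA, Finset.empty_union,
      Finset.filter_true_of_mem, Finset.card_image_of_injOn hinj]
    intro X hX
    obtain ⟨Y, _, rfl⟩ := Finset.mem_image.1 hX
    exact Finset.mem_insert_self _ _
  have hfx : ∀ x ∈ R, freq C x = 2 * freq A x := by
    intro x hx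
    have hxz : x ≠ z := by
      rintro rfl
      exact hz hx
    unfold freq
    rw [hC, Finset.filter_union, Finset.card_union_of_disjoint
      (Finset.disjoint_filter_filter hdisj), Finset.filter_image]
    have h1 : (A.filter fun S => x ∈ insert z S) = A.filter fun S => x ∈ S := by
      refine Finset.filter_congr fun S _ => ?_
      rw [Finset.mem_insert]
      exact ⟨fun h => h.resolve_left hxz, Or.inr⟩
    rw [h1, Finset.card_image_of_injOn (hinj.mono (Finset.coe_subset.2 (Finset.filter_subset _ _)))]
    ring
  have hCne : C.Nonempty := hAne.mono Finset.subset_union_left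
  have hsepz : ∀ x ∈ R, ∃ S ∈ C, z ∈ S ∧ x ∉ S := by
    intro x hx
    have hxz : x ≠ z := by
      rintro rfl
      exact hz hx
    have h1 : ∃ X ∈ A, x ∉ X := by
      by_contra hcon2
      push Not at hcon2
      have h2 : freq A x = A.card := by
        unfold freq
        rw [Finset.filter_true_of_mem hcon2]
      have := hlt x hx
      omega
    obtain ⟨X, hX, hxX⟩ := h1
    refine ⟨insert z X, Finset.mem_union_right _ (Finset.mem_image_of_mem _ hX),
      Finset.mem_insert_self _ _, ?_⟩
    rw [Finset.mem_insert]
    rintro (h1 | h1)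
    · exact hxz h1
    · exact hxX h1
  have hCSep : Sep C := by
    intro x hx y hy hxy
    rw [hCsup, Finset.mem_insert] at hx hy
    rcases hx with rfl | hx <;> rcases hy with rfl | hy
    · exact absurd rfl hxy
    · obtain ⟨S, hS, h1⟩ := hsepz y hy
      exact ⟨S, hS, Or.inl h1⟩
    · obtain ⟨S, hS, h1⟩ := hsepz x hx
      exact ⟨S, hS, Or.inr h1⟩
    · rw [← hsup] at hx hy
      obtain ⟨S, hS, h1⟩ := hSep x hx y hy hxy
      exact ⟨S, Finset.mem_union_left _ hS, h1⟩
  have hCsupne : (C.sup id).Nonempty := by
    rw [hCsup]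
    exact Finset.insert_nonempty _ _
  have hmax : 2 * (C.sup id).sup (freq C) = C.card := by
    have h1 : (C.sup id).sup (freq C) = A.card := by
      apply le_antisymm
      · refine Finset.sup_le fun x hx => ?_
        rw [hCsup, Finset.mem_insert] at hx
        rcases hx with rfl | hx
        · exact hfz.le
        · rw [hfx x hx]
          exact (hlt x hx).le
      · rw [← hfz]
        refine Finset.le_sup (f := freq C) ?_
        rw [hCsup]
        exact Finset.mem_insert_self _ _
    rw [h1, hCcard]
  have hpow := (h C hCne hCUC hCSep hCsupne).1 hmax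
  have hx0C : x0 ∈ C.sup id := by
    rw [hCsup]
    exact Finset.mem_insert_of_mem hx0
  have h1 := freq_powerset (C.sup id) x0 hx0C
  rw [← hpow, hfx x0 hx0, hCcard] at h1
  have := hlt x0 hx0
  omega

end Pool.Agent.H4.FP
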