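import Pool.Agent.H4.FP.Red
import Pool.Agent.H4.FP.Pow

/-!
Module BOOL1 (about 100 lines). Notation: Good = every point in exactly half of the members is dominating.
`half_facts`: C = B.filter (z ∉ ·). 2|C| = |B| because freq B z + |C| = |B|. For y take V = B.filter (y ∈ ·) in hgood:
  freq C y = #{Z ∈ V : z ∉ Z} ≤ #{Z ∈ V : z ∈ Z} = freq B y - freq C y, so 2 freq C y ≤ freq B y, so 4 freq C y ≤ 2 freq B y ≤ |B| = 2|C|.
`half_freq`: the induction hypothesis ih is applied to the reduced family of C (exists_reduction): its universe R is a subset of C.sup id,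
  which is a subset of B.sup id without z; it is R.powerset, so (freq_powerset) 2 freq C x = |C| for x in R; the other points y of C.sup id
  have the same members of C as some x in R, so the same frequency.
`half_univ`: y in C.sup id: from half_freq 2 freq C y = |C|, so |B| = 4 freq C y ≤ 2 freq B y ≤ |B|.  Conversely if y ≠ z, y ∈ B.sup id,
  2 freq B y = |B| and y ∉ C.sup id then all members containing y contain z, and both have |B|/2 members, so they are inseparable.
-/

set_option autoImplicit false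

namespace Pool.Agent.H4.FP

def Good (B : Finset (Finset ℕ)) : Prop :=
  ∀ z, 2 * freq B z = B.card → ∀ V ⊆ B, (∀ X ∈ V, ∀ Y ∈ B, X ⊆ Y → Y ∈ V) →
    (V.filter (fun Z => z ∉ Z)).card ≤ (V.filter (fun Z => z ∈ Z)).card

theorem half_facts (B : Finset (Finset ℕ)) (hB : UC B) (hg : Good B)
    (hf : ∀ x, 2 * freq B x ≤ B.card) (z : ℕ) (hz : 2 * freq B z = B.card) :
    UC (B.filter (fun Z => z ∉ Z)) ∧ 2 * (B.filter (fun Z => z ∉ Z)).card = B.card ∧
      (∀ y, 2 * freq (B.filter (fun Z => z ∉ Z)) y ≤ freq B y) ∧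
      (∀ y, 2 * freq (B.filter (fun Z => z ∉ Z)) y ≤ (B.filter (fun Z => z ∉ Z)).card) := by
  have h2 := Finset.card_filter_add_card_filter_not (s := B) (fun Z => z ∈ Z)
  have hcard : 2 * (B.filter (fun Z => z ∉ Z)).card = B.card := by
    unfold freq at hz
    omega
  have hy : ∀ y, 2 * freq (B.filter (fun Z => z ∉ Z)) y ≤ freq B y := by
    intro y
    have h3 := hg z hz (B.filter fun Z => y ∈ Z) (Finset.filter_subset _ _) (by
      intro X hX Y hY hXY
      rw [Finset.mem_filter] at hX ⊢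
      exact ⟨hY, hXY hX.2⟩)
    have h4 := Finset.card_filter_add_card_filter_not (s := B.filter fun Z => y ∈ Z)
      (fun Z => z ∈ Z)
    have h5 : (B.filter (fun Z => z ∉ Z)).filter (fun Z => y ∈ Z) =
        (B.filter (fun Z => y ∈ Z)).filter (fun Z => z ∉ Z) := by
      rw [Finset.filter_comm]
    unfold freq
    rw [h5]
    omega
  refine ⟨?_, hcard, hy, ?_⟩
  · intro X hX Y hY
    rw [Finset.mem_filter] at hX hY ⊢
    refine ⟨hB X hX.1 Y hY.1, ?_⟩
    rw [Finset.mem_union]
    rintro (h | h)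
    · exact hX.2 h
    · exact hY.2 h
  · intro y
    have h1 := hy y
    have h2 := hf y
    omega

theorem half_freq (B : Finset (Finset ℕ)) (hB : UC B) (hg : Good B)
    (hf : ∀ x, 2 * freq B x ≤ B.card) (z : ℕ) (hzU : z ∈ B.sup id) (hz : 2 * freq B z = B.card)
    (ih : ∀ C : Finset (Finset ℕ), (C.sup id).card < (B.sup id).card → C.Nonempty → UC C → Sep C →
      (∀ x, 2 * freq C x ≤ C.card) → C = (C.sup id).powerset) :
    ∀ y ∈ (B.filter (fun Z => z ∉ Z)).sup id,
      4 * freq (B.filter (fun Z => z ∉ Z)) y = B.card ∧ 2 * freq B y = B.card := by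
  obtain ⟨hUC, hcard, h1, h2⟩ := half_facts B hB hg hf z hz
  intro y hy
  set C := B.filter (fun Z => z ∉ Z) with hC
  obtain ⟨R, hRsub, -, hcls, hRcard, hRUC, hRSep, hRsup, hRfreq⟩ := exists_reduction C hUC
  -- the universe is smaller
  have hsub : R ⊆ (B.sup id).erase z := by
    intro x hx
    obtain ⟨S, hS, hxS⟩ := pow_mem_sup.1 (hRsub hx)
    rw [hC, Finset.mem_filter] at hS
    rw [Finset.mem_erase]
    refine ⟨?_, pow_mem_sup.2 ⟨S, hS.1, hxS⟩⟩
    rintro rfl
    exact hS.2 hxS
  have hlt : ((C.image fun Z => Z ∩ R).sup id).card < (B.sup id).card := by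
    rw [hRsup]
    exact lt_of_le_of_lt (Finset.card_le_card hsub) (Finset.card_erase_lt_of_mem hzU)
  obtain ⟨S0, hS0, _⟩ := pow_mem_sup.1 hy
  have hpow := ih (C.image fun Z => Z ∩ R) hlt ⟨_, Finset.mem_image_of_mem _ hS0⟩ hRUC hRSep (by
    intro x
    by_cases hx : x ∈ R
    · rw [hRfreq x hx, hRcard]
      exact h2 x
    · rw [freq_eq_zero _ _ (by rw [hRsup]; exact hx)]
      omega)
  obtain ⟨x, hx, hxy⟩ := hcls y hy
  have h3 := freq_powerset ((C.image fun Z => Z ∩ R).sup id) x (by rw [hRsup]; exact hx)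
  rw [← hpow, hRfreq x hx, hRcard] at h3
  have h4 : freq C y = freq C x := by
    unfold freq
    rw [Finset.filter_congr hxy]
  have h5 := h1 y
  have h6 := hf y
  omega

theorem half_univ (B : Finset (Finset ℕ)) (hB : UC B) (hsep : Sep B) (hg : Good B)
    (hf : ∀ x, 2 * freq B x ≤ B.card) (z : ℕ) (hzU : z ∈ B.sup id) (hz : 2 * freq B z = B.card)
    (ih : ∀ C : Finset (Finset ℕ), (C.sup id).card < (B.sup id).card → C.Nonempty → UC C → Sep C →
      (∀ x, 2 * freq C x ≤ C.card) → C = (C.sup id).powerset) :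
    (B.filter (fun Z => z ∉ Z)).sup id
      = ((B.sup id).filter (fun y => 2 * freq B y = B.card)).erase z := by
  ext y
  rw [Finset.mem_erase, Finset.mem_filter]
  constructor
  · intro hy
    refine ⟨?_, ?_, (half_freq B hB hg hf z hzU hz ih y hy).2⟩
    · rintro rfl
      obtain ⟨S, hS, hyS⟩ := pow_mem_sup.1 hy
      exact (Finset.mem_filter.1 hS).2 hyS
    · obtain ⟨S, hS, hyS⟩ := pow_mem_sup.1 hy
      exact pow_mem_sup.2 ⟨S, (Finset.mem_filter.1 hS).1, hyS⟩
  · rintro ⟨hyz, hyU, hy2⟩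
    by_contra hcon
    have h1 : ∀ S ∈ B, y ∈ S → z ∈ S := by
      intro S hS hyS
      by_contra hzS
      exact hcon (pow_mem_sup.2 ⟨S, Finset.mem_filter.2 ⟨hS, hzS⟩, hyS⟩)
    have h2 : B.filter (fun Z => y ∈ Z) ⊆ B.filter (fun Z => z ∈ Z) := by
      intro S hS
      rw [Finset.mem_filter] at hS ⊢
      exact ⟨hS.1, h1 S hS.1 hS.2⟩
    have h3 : B.filter (fun Z => y ∈ Z) = B.filter (fun Z => z ∈ Z) := by
      refine Finset.eq_of_subset_of_card_le h2 ?_
      unfold freq at hz hy2
      omega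
    obtain ⟨S, hS, h4⟩ := hsep y hyU z hzU hyz
    have h5 : S ∈ B.filter (fun Z => y ∈ Z) ↔ S ∈ B.filter (fun Z => z ∈ Z) := by rw [h3]
    rw [Finset.mem_filter, Finset.mem_filter] at h5
    tauto

end Pool.Agent.H4.FP
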