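import Pool.Agent.H4.FP.Bool1

/-!
Module BOOL2 (about 100 lines).
T = points of the universe with 2 freq = |B|.
`half_sep`: C = members without z is separating.  Let a ≠ b in C.sup id = T.erase z, and suppose they are in the same members of C.
 half_freq for the point a (a ∈ T): b ∈ T.erase a = universe of the members without a, so 4 #{Z ∈ B : a ∉ Z, b ∈ Z} = |B|; likewise with a, b exchanged.
 All these |B|/4 + |B|/4 = |B|/2 members contain z (C does not separate a, b), and |{Z ∋ z}| = |B|/2, so each member containing z contains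
 exactly one of a, b.  But B.sup id ∈ B (B nonempty union-closed: Finset.sup_mem or induction) contains z, a, b. Contradiction.
`half_pow`: so by ih C = powerset (T.erase z).
`bool_step`: (htight gives z0 ∈ T.)  |B| = 2 * 2^(|T|-1) = 2^|T|.  Every proper subset of T is in B (avoid some z ∈ T).  So B has exactly one more
 member, and U = B.sup id ∈ B is not a proper subset of T (T ⊆ U), so B = (T.powerset.erase T) ∪ {U}.  If |T| ≥ 2: T = {z} ∪ T.erase z is a union of
 two proper subsets so T ∈ B, so T = U.  If |T| = 1: B = {∅, U}, separating gives |U| ≤ 1, U = T.  So B = powerset U.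
`boolean_of_good`: strong induction on the size of the universe; universe empty: B = {∅}.
-/

set_option autoImplicit false

namespace Pool.Agent.H4.FP

theorem sup_mem_of_uc (B : Finset (Finset ℕ)) (hB : UC B) (hne : B.Nonempty) : B.sup id ∈ B := by
  rw [← Finset.sup'_eq_sup hne]
  exact Finset.sup'_mem (B : Set (Finset ℕ)) (fun x hx y hy => hB x hx y hy) B hne id
    (fun i hi => hi)

private theorem bool2_sub {B : Finset (Finset ℕ)} {S : Finset ℕ} (hS : S ∈ B) : S ⊆ B.sup id :=
  Finset.le_sup (f := id) hS

theorem half_sep (B : Finset (Finset ℕ)) (hB : UC B) (hsep : Sep B) (hg : Good B)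
    (hf : ∀ x, 2 * freq B x ≤ B.card) (z : ℕ) (hzU : z ∈ B.sup id) (hz : 2 * freq B z = B.card)
    (ih : ∀ C : Finset (Finset ℕ), (C.sup id).card < (B.sup id).card → C.Nonempty → UC C → Sep C →
      (∀ x, 2 * freq C x ≤ C.card) → C = (C.sup id).powerset) :
    Sep (B.filter (fun Z => z ∉ Z)) := by
  classical
  intro a ha b hb hab
  by_contra hcon
  push Not at hcon
  have hu := half_univ B hB hsep hg hf z hzU hz ih
  have ha' := ha
  have hb' := hb
  rw [hu, Finset.mem_erase, Finset.mem_filter] at ha' hb'
  obtain ⟨haz, haU, haf⟩ := ha'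
  obtain ⟨hbz, hbU, hbf⟩ := hb'
  have hua := half_univ B hB hsep hg hf a haU haf ih
  have hub := half_univ B hB hsep hg hf b hbU hbf ih
  have h1 : 4 * freq (B.filter (fun Z => a ∉ Z)) b = B.card := by
    refine (half_freq B hB hg hf a haU haf ih b ?_).1
    rw [hua, Finset.mem_erase, Finset.mem_filter]
    exact ⟨hab.symm, hbU, hbf⟩
  have h2 : 4 * freq (B.filter (fun Z => b ∉ Z)) a = B.card := by
    refine (half_freq B hB hg hf b hbU hbf ih a ?_).1
    rw [hub, Finset.mem_erase, Finset.mem_filter]
    exact ⟨hab, haU, haf⟩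
  unfold freq at h1 h2 hz
  set P := (B.filter (fun Z => a ∉ Z)).filter (fun S => b ∈ S) with hP
  set Q := (B.filter (fun Z => b ∉ Z)).filter (fun S => a ∈ S) with hQ
  set R := B.filter (fun S => z ∈ S) with hR
  have hdisj : Disjoint P Q := by
    rw [Finset.disjoint_left]
    intro S hS hS'
    rw [hP, Finset.mem_filter] at hS
    rw [hQ, Finset.mem_filter, Finset.mem_filter] at hS'
    exact hS'.1.2 hS.2
  have hPR : P ⊆ R := by
    intro S hS
    rw [hP, Finset.mem_filter, Finset.mem_filter] at hS
    rw [hR, Finset.mem_filter]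
    refine ⟨hS.1.1, ?_⟩
    by_contra hzS
    exact hS.1.2 ((hcon S (Finset.mem_filter.mpr ⟨hS.1.1, hzS⟩)).2 hS.2)
  have hQR : Q ⊆ R := by
    intro S hS
    rw [hQ, Finset.mem_filter, Finset.mem_filter] at hS
    rw [hR, Finset.mem_filter]
    refine ⟨hS.1.1, ?_⟩
    by_contra hzS
    exact hS.1.2 ((hcon S (Finset.mem_filter.mpr ⟨hS.1.1, hzS⟩)).1 hS.2)
  have hPQ : P ∪ Q = R := by
    apply Finset.eq_of_subset_of_card_le (Finset.union_subset hPR hQR)
    rw [Finset.card_union_of_disjoint hdisj]
    omega
  have hBne : B.Nonempty := by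
    rw [Finset.nonempty_iff_ne_empty]
    rintro rfl
    simp at hzU
  have hUB := sup_mem_of_uc B hB hBne
  have hUR : B.sup id ∈ R := by
    rw [hR, Finset.mem_filter]
    exact ⟨hUB, hzU⟩
  rw [← hPQ, Finset.mem_union] at hUR
  rcases hUR with h | h
  · rw [hP, Finset.mem_filter, Finset.mem_filter] at h
    exact h.1.2 haU
  · rw [hQ, Finset.mem_filter, Finset.mem_filter] at h
    exact h.1.2 hbU

theorem half_pow (B : Finset (Finset ℕ)) (hB : UC B) (hsep : Sep B) (hg : Good B)
    (hf : ∀ x, 2 * freq B x ≤ B.card) (z : ℕ) (hzU : z ∈ B.sup id) (hz : 2 * freq B z = B.card)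
    (ih : ∀ C : Finset (Finset ℕ), (C.sup id).card < (B.sup id).card → C.Nonempty → UC C → Sep C →
      (∀ x, 2 * freq C x ≤ C.card) → C = (C.sup id).powerset) :
    B.filter (fun Z => z ∉ Z)
      = (((B.sup id).filter (fun y => 2 * freq B y = B.card)).erase z).powerset := by
  classical
  obtain ⟨h1, h2, -, h4⟩ := half_facts B hB hg hf z hz
  have hu := half_univ B hB hsep hg hf z hzU hz ih
  have hs := half_sep B hB hsep hg hf z hzU hz ih
  have hBne : B.Nonempty := by
    rw [Finset.nonempty_iff_ne_empty]
    rintro rfl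
    simp at hzU
  have hcard : ((B.filter (fun Z => z ∉ Z)).sup id).card < (B.sup id).card := by
    rw [hu]
    apply Finset.card_lt_card
    rw [Finset.ssubset_iff_of_subset]
    · exact ⟨z, hzU, Finset.notMem_erase z _⟩
    · exact (Finset.erase_subset _ _).trans (Finset.filter_subset _ _)
  have hne : (B.filter (fun Z => z ∉ Z)).Nonempty := by
    rw [← Finset.card_pos]
    have := Finset.card_pos.mpr hBne
    omega
  have := ih _ hcard hne h1 hs h4
  rw [hu] at this
  exact this

theorem bool_step (B : Finset (Finset ℕ)) (hB : UC B) (hsep : Sep B) (hg : Good B)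
    (hf : ∀ x, 2 * freq B x ≤ B.card) (z : ℕ) (hzU : z ∈ B.sup id) (hz : 2 * freq B z = B.card)
    (ih : ∀ C : Finset (Finset ℕ), (C.sup id).card < (B.sup id).card → C.Nonempty → UC C → Sep C →
      (∀ x, 2 * freq C x ≤ C.card) → C = (C.sup id).powerset) :
    B = (B.sup id).powerset := by
  classical
  set U := B.sup id with hU
  set T := U.filter (fun y => 2 * freq B y = B.card) with hT
  have hzT : z ∈ T := Finset.mem_filter.mpr ⟨hzU, hz⟩
  have hTU : T ⊆ U := Finset.filter_subset _ _
  have hpow : ∀ z' ∈ T, B.filter (fun Z => z' ∉ Z) = (T.erase z').powerset := by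
    intro z' hz'
    obtain ⟨h1, h2⟩ := Finset.mem_filter.mp hz'
    exact half_pow B hB hsep hg hf z' h1 h2 ih
  have hBne : B.Nonempty := by
    rw [Finset.nonempty_iff_ne_empty]
    rintro rfl
    simp [hU] at hzU
  have hUB : U ∈ B := sup_mem_of_uc B hB hBne
  have hcard : B.card = 2 ^ T.card := by
    obtain ⟨-, h2, -, -⟩ := half_facts B hB hg hf z hz
    rw [hpow z hzT, Finset.card_powerset, Finset.card_erase_of_mem hzT] at h2
    have hpos : 0 < T.card := Finset.card_pos.mpr ⟨z, hzT⟩
    obtain ⟨n, hn⟩ := Nat.exists_eq_succ_of_ne_zero hpos.ne'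
    rw [hn, Nat.succ_sub_one] at h2
    rw [hn, pow_succ]
    omega
  have hprop : T.powerset.erase T ⊆ B := by
    intro S hS
    rw [Finset.mem_erase, Finset.mem_powerset] at hS
    obtain ⟨hne, hST⟩ := hS
    obtain ⟨z', hz'T, hz'S⟩ := Finset.exists_of_ssubset (Finset.ssubset_iff_subset_ne.mpr ⟨hST, hne⟩)
    have : S ∈ B.filter (fun Z => z' ∉ Z) := by
      rw [hpow z' hz'T, Finset.mem_powerset]
      exact Finset.subset_erase.mpr ⟨hST, hz'S⟩
    exact (Finset.mem_filter.mp this).1
  have hUnot : U ∉ T.powerset.erase T := by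
    rw [Finset.mem_erase, Finset.mem_powerset]
    rintro ⟨h1, h2⟩
    exact h1 (Finset.Subset.antisymm h2 hTU)
  have hBeq : insert U (T.powerset.erase T) = B := by
    apply Finset.eq_of_subset_of_card_le
    · exact Finset.insert_subset hUB hprop
    · rw [Finset.card_insert_of_notMem hUnot,
        Finset.card_erase_of_mem (Finset.mem_powerset_self T), Finset.card_powerset, hcard]
      have : 0 < 2 ^ T.card := by positivity
      omega
  have hTeq : T = U := by
    by_cases h2 : ∃ z' ∈ T, z' ≠ z
    · obtain ⟨z', hz'T, hne⟩ := h2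
      have e1 : T.erase z ∈ B := by
        have : T.erase z ∈ B.filter (fun Z => z ∉ Z) := by
          rw [hpow z hzT, Finset.mem_powerset]
        exact (Finset.mem_filter.mp this).1
      have e2 : T.erase z' ∈ B := by
        have : T.erase z' ∈ B.filter (fun Z => z' ∉ Z) := by
          rw [hpow z' hz'T, Finset.mem_powerset]
        exact (Finset.mem_filter.mp this).1
      have e3 : T.erase z ∪ T.erase z' = T := by
        ext x
        rw [Finset.mem_union, Finset.mem_erase, Finset.mem_erase]
        constructor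
        · rintro (h | h)
          · exact h.2
          · exact h.2
        · intro hx
          by_cases hxz : x = z
          · right
            exact ⟨fun h => hne (by rw [← h, hxz]), hx⟩
          · left
            exact ⟨hxz, hx⟩
      have e4 : T ∈ B := by
        rw [← e3]; exact hB _ e1 _ e2
      rw [← hBeq, Finset.mem_insert] at e4
      rcases e4 with h | h
      · exact h
      · exact absurd rfl (Finset.mem_erase.mp h).1
    · push Not at h2
      apply Finset.Subset.antisymm hTU
      intro u hu
      by_contra huT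
      have huz : u ≠ z := fun h => huT (h ▸ hzT)
      obtain ⟨S, hS, hsp⟩ := hsep u hu z hzU huz
      rw [← hBeq, Finset.mem_insert] at hS
      rcases hS with rfl | hS
      · rcases hsp with h | h
        · exact h.2 hzU
        · exact h.2 hu
      · rw [Finset.mem_erase, Finset.mem_powerset] at hS
        rcases hsp with h | h
        · exact huT (hS.2 h.1)
        · apply hS.1
          apply Finset.Subset.antisymm hS.2
          intro x hx
          rw [h2 x hx]
          exact h.1
  rw [← hBeq, ← hTeq, Finset.insert_erase (Finset.mem_powerset_self T)]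

theorem boolean_of_good
    (hgood : ∀ B : Finset (Finset ℕ), UC B → (∀ x, 2 * freq B x ≤ B.card) → Good B)
    (htight : ∀ B : Finset (Finset ℕ), UC B → (B.sup id).Nonempty →
      (∀ x, 2 * freq B x ≤ B.card) → ∃ z ∈ B.sup id, 2 * freq B z = B.card) :
    ∀ B : Finset (Finset ℕ), B.Nonempty → UC B → Sep B → (∀ x, 2 * freq B x ≤ B.card) →
      B = (B.sup id).powerset := by
  classical
  suffices h : ∀ n : ℕ, ∀ B : Finset (Finset ℕ), (B.sup id).card = n → B.Nonempty → UC B →
      Sep B → (∀ x, 2 * freq B x ≤ B.card) → B = (B.sup id).powerset from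
    fun B => h _ B rfl
  intro n
  induction n using Nat.strong_induction_on with
  | _ n IH =>
    intro B hn hne hB hsep hf
    by_cases hU : (B.sup id).Nonempty
    · obtain ⟨z, hzU, hz⟩ := htight B hB hU hf
      refine bool_step B hB hsep (hgood B hB hf) hf z hzU hz ?_
      intro C hC hCne hCu hCs hCf
      exact IH _ (hn ▸ hC) C rfl hCne hCu hCs hCf
    · rw [Finset.not_nonempty_iff_eq_empty] at hU
      rw [hU, Finset.powerset_empty]
      apply Finset.eq_singleton_iff_nonempty_unique_mem.mpr
      refine ⟨hne, ?_⟩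
      intro S hS
      have := bool2_sub hS
      rw [hU, Finset.subset_empty] at this
      exact this

end Pool.Agent.H4.FP
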