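import Mathlib

/-!
Module CODE (about 50 lines): patterns.
Choose an injection c of M into (Fin (d-1) → Bool) (card 2^(d-1)), d ≥ 1, and code m = Fin.cons false (c m) on Fin (d-1+1) = Fin d.
For (m,s) ≠ (m',s'): if s ≠ s' take column 0; if s = s' then m ≠ m', take a column where the codes differ.
Pattern p m (c,j) = code m j, for all c : Fin 3.  For given units k, k' : Fin 3 × Fin d, and the column j where the patterns
differ, one of (0,j),(1,j),(2,j) is neither k nor k'.
-/

set_option autoImplicit false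

namespace Pool.Agent.H4.FP

theorem code_third (a b : Fin 3) : ∃ c : Fin 3, c ≠ a ∧ c ≠ b := by
  revert a b; decide

theorem exists_pattern (M : Type) [Fintype M] [DecidableEq M] (d : ℕ) (hd : 0 < d)
    (h : Fintype.card M ≤ 2 ^ (d - 1)) :
    ∃ p : M → Fin 3 × Fin d → Bool, ∀ (m m' : M) (s s' : Bool), (m, s) ≠ (m', s') →
      ∀ k k' : Fin 3 × Fin d, ∃ j, j ≠ k ∧ j ≠ k' ∧ xor (p m j) s ≠ xor (p m' j) s' := by
  obtain ⟨e, rfl⟩ : ∃ e, d = e + 1 := ⟨d - 1, by omega⟩
  have hc : Fintype.card M ≤ Fintype.card (Fin e → Bool) := by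
    simpa using h
  obtain ⟨c⟩ := Function.Embedding.nonempty_of_card_le hc
  refine ⟨fun m j => (Fin.cons false (c m) : Fin (e + 1) → Bool) j.2, ?_⟩
  intro m m' s s' hne k k'
  -- the column where the patterns differ
  have hcol : ∃ l : Fin (e + 1), xor ((Fin.cons false (c m) : Fin (e + 1) → Bool) l) s ≠
      xor ((Fin.cons false (c m') : Fin (e + 1) → Bool) l) s' := by
    by_cases hs : s = s'
    · subst hs
      have hm : m ≠ m' := fun hm => hne (by rw [hm])
      have hcm : c m ≠ c m' := fun hh => hm (c.injective hh)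
      obtain ⟨l, hl⟩ := Function.ne_iff.1 hcm
      refine ⟨l.succ, ?_⟩
      simp only [Fin.cons_succ]
      intro hx
      apply hl
      revert hx
      cases c m l <;> cases c m' l <;> cases s <;> simp
    · refine ⟨0, ?_⟩
      simp only [Fin.cons_zero, Bool.false_xor]
      exact hs
  obtain ⟨l, hl⟩ := hcol
  obtain ⟨a, ha, hb⟩ := code_third k.1 k'.1
  refine ⟨(a, l), ?_, ?_, hl⟩
  · intro hk
    exact ha (by rw [← hk])
  · intro hk
    exact hb (by rw [← hk])

end Pool.Agent.H4.FP
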