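import Mathlib

/-!
MP_75f39d_co: Frankl's union-closed sets conjecture is equivalent to Poonen's strict form.
Overview: /team-store/H4_75f39d.md
-/

set_option autoImplicit false

namespace Pool.Agent.H4.FP

/-- closed under union of two members -/
def UC (A : Finset (Finset ℕ)) : Prop := ∀ X ∈ A, ∀ Y ∈ A, X ∪ Y ∈ A

/-- any two distinct points of the universe are told apart by a member -/
def Sep (A : Finset (Finset ℕ)) : Prop :=
  ∀ x ∈ A.sup id, ∀ y ∈ A.sup id, x ≠ y →
    ∃ S ∈ A, (x ∈ S ∧ y ∉ S) ∨ (y ∈ S ∧ x ∉ S)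

/-- number of members that contain `x` -/
def freq (A : Finset (Finset ℕ)) (x : ℕ) : ℕ := (A.filter (fun S => x ∈ S)).card

/-- the union-closed sets conjecture -/
def Frankl : Prop :=
  ∀ A : Finset (Finset ℕ), UC A → (∃ X ∈ A, X.Nonempty) →
    ∃ x ∈ A.sup id, A.card ≤ 2 * freq A x

/-- Poonen's strict form (Q1) -/
def Poonen : Prop :=
  ∀ A : Finset (Finset ℕ), A.Nonempty → UC A → Sep A → A ≠ (A.sup id).powerset →
    ∃ x ∈ A.sup id, 2 * freq A x > A.card

/-- the weak form: for a separating union-closed family with nonempty universe, the largest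
frequency is half of the number of members exactly for power sets -/
def Weak : Prop :=
  ∀ A : Finset (Finset ℕ), A.Nonempty → UC A → Sep A → (A.sup id).Nonempty →
    (2 * (A.sup id).sup (freq A) = A.card ↔ A = (A.sup id).powerset)

/-! Objects of part (1): the family `SS` inside `B^d` -/

/-- `w_i` contains `z` for all `i` -/
def Son (B : Finset (Finset ℕ)) (z d : ℕ) : Finset (Fin d → Finset ℕ) :=
  Fintype.piFinset fun _ => B.filter (fun Z => z ∈ Z)

/-- `w_i` avoids `z` for all `i` -/
def Soff (B : Finset (Finset ℕ)) (z d : ℕ) : Finset (Fin d → Finset ℕ) :=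
  Fintype.piFinset fun _ => B.filter (fun Z => z ∉ Z)

/-- the union-closed family on the two blocks -/
def SS (B : Finset (Finset ℕ)) (z d : ℕ) : Finset (Fin d → Finset ℕ) := Son B z d ∪ Soff B z d

/-- the sign of `x` in `Z` -/
def chi (x : ℕ) (Z : Finset ℕ) : ℝ := if x ∈ Z then 1 else -1

/-! Objects of the engine -/

/-- the family of configurations that obey all pattern-conditioned operations -/
def fam {σ K M : Type} [DecidableEq σ] [Fintype K] [DecidableEq K] [Fintype M]
    (S : Finset σ) (D : Bool → Finset σ) (un : M → K) (I : M → Finset σ)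
    (p : M → K → Bool) : Finset (K → σ) := by
  classical
  exact (Fintype.piFinset fun _ : K => S).filter fun W =>
    ∀ m : M, ∀ s : Bool, (∀ j, j ≠ un m → W j ∈ D (xor (p m j) s)) → W (un m) ∈ I m

end Pool.Agent.H4.FP
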