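import Mathlib

/-!
Module DOWN (about 50 lines): down-sets of every size, nested with a given one.
If D.card < n: induct, D ≠ S, add a minimal element of S \ D (Finset.exists_minimal).  If D.card > n: remove a maximal element of D.
-/

set_option autoImplicit false

namespace Pool.Agent.H4.FP

private theorem down_interp_up {σ : Type} [DecidableEq σ] [PartialOrder σ] (S D : Finset σ)
    (hDS : D ⊆ S) (hD : ∀ v ∈ D, ∀ u ∈ S, u ≤ v → u ∈ D) (k : ℕ) (hk : D.card + k ≤ S.card) :
    ∃ D' ⊆ S, (∀ v ∈ D', ∀ u ∈ S, u ≤ v → u ∈ D') ∧ D'.card = D.card + k ∧ D ⊆ D' := by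
  induction k with
  | zero => exact ⟨D, hDS, hD, rfl, subset_rfl⟩
  | succ k ih =>
    obtain ⟨E, hES, hE, hc, hDE⟩ := ih (by omega)
    have hne : (S \ E).Nonempty := by
      rw [Finset.sdiff_nonempty]
      intro h
      have := Finset.card_le_card h
      omega
    obtain ⟨m, hm⟩ := Finset.exists_minimal hne
    have hmS : m ∈ S := (Finset.mem_sdiff.1 hm.1).1
    have hmE : m ∉ E := (Finset.mem_sdiff.1 hm.1).2
    refine ⟨insert m E, Finset.insert_subset hmS hES, ?_, ?_, hDE.trans (Finset.subset_insert _ _)⟩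
    · intro v hv u hu huv
      rcases Finset.mem_insert.1 hv with rfl | hv'
      · by_cases huE : u ∈ E
        · exact Finset.mem_insert_of_mem huE
        · have h1 : v ≤ u := hm.2 (Finset.mem_sdiff.2 ⟨hu, huE⟩) huv
          rw [le_antisymm huv h1]
          exact Finset.mem_insert_self _ _
      · exact Finset.mem_insert_of_mem (hE v hv' u hu huv)
    · rw [Finset.card_insert_of_notMem hmE, hc]
      ring

private theorem down_interp_down {σ : Type} [DecidableEq σ] [PartialOrder σ] (S D : Finset σ)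
    (hD : ∀ v ∈ D, ∀ u ∈ S, u ≤ v → u ∈ D) (k : ℕ) (hk : k ≤ D.card) :
    ∃ D' ⊆ D, (∀ v ∈ D', ∀ u ∈ S, u ≤ v → u ∈ D') ∧ D'.card = D.card - k := by
  induction k with
  | zero => exact ⟨D, subset_rfl, hD, rfl⟩
  | succ k ih =>
    obtain ⟨E, hED, hE, hc⟩ := ih (by omega)
    have hne : E.Nonempty := by
      rw [← Finset.card_pos]
      omega
    obtain ⟨m, hm⟩ := Finset.exists_maximal hne
    refine ⟨E.erase m, (Finset.erase_subset _ _).trans hED, ?_, ?_⟩
    · intro v hv u hu huv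
      have hvE := Finset.mem_of_mem_erase hv
      refine Finset.mem_erase.2 ⟨?_, hE v hvE u hu huv⟩
      rintro rfl
      exact (Finset.ne_of_mem_erase hv) (le_antisymm (hm.2 hvE huv) huv)
    · rw [Finset.card_erase_of_mem hm.1, hc]
      omega

theorem down_interp {σ : Type} [DecidableEq σ] [PartialOrder σ] (S D : Finset σ) (hDS : D ⊆ S)
    (hD : ∀ v ∈ D, ∀ u ∈ S, u ≤ v → u ∈ D) (n : ℕ) (hn : n ≤ S.card) :
    ∃ D' ⊆ S, (∀ v ∈ D', ∀ u ∈ S, u ≤ v → u ∈ D') ∧ D'.card = n ∧ (D ⊆ D' ∨ D' ⊆ D) := by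
  rcases le_total D.card n with h | h
  · obtain ⟨E, h1, h2, h3, h4⟩ := down_interp_up S D hDS hD (n - D.card) (by omega)
    exact ⟨E, h1, h2, by omega, Or.inl h4⟩
  · obtain ⟨E, h1, h2, h3⟩ := down_interp_down S D hD (D.card - n) (by omega)
    exact ⟨E, h1.trans hDS, h2, by omega, Or.inr h1⟩

end Pool.Agent.H4.FP
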