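import Pool.Agent.H4.FP.Defs

/-!
Module ENGA (about 80 lines): generic sums.
`sum_box`: Finset.prod_univ_sum with the functions g j w = if j = k then f w else 1 (or Fintype.piFinset facts).
`bonferroni`: pointwise for W in Om with n = #{a : W ∈ X a}: (if n = 0 then f else 0) ≤ f - n f + n (n-1), because for n ≥ 1 the right side
 is (n-1)(n - f) ≥ 0; sum over Om and exchange sums; Σ_a Σ_{b ≠ a} [W ∈ X a ∩ X b] = n (n-1).
-/

set_option autoImplicit false

namespace Pool.Agent.H4.FP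

theorem sum_box {σ K : Type} [DecidableEq σ] [Fintype K] [DecidableEq K] (T : K → Finset σ)
    (f : σ → ℝ) (k : K) :
    ∑ W ∈ Fintype.piFinset T, f (W k)
      = (∑ w ∈ T k, f w) * ∏ j ∈ Finset.univ.erase k, ((T j).card : ℝ) := by
  have h := Finset.prod_univ_sum (t := T) (f := fun j w => if j = k then f w else (1 : ℝ))
  have h1 : ∀ W : K → σ, (∏ j, (if j = k then f (W j) else (1 : ℝ))) = f (W k) := by
    intro W
    rw [Finset.prod_eq_single k]
    · simp
    · intro b _ hb
      simp [hb]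
    · intro hk
      exact absurd (Finset.mem_univ k) hk
  rw [← Finset.sum_congr rfl (fun W _ => h1 W), ← h,
    ← Finset.mul_prod_erase Finset.univ _ (Finset.mem_univ k)]
  congr 1
  · simp
  · apply Finset.prod_congr rfl
    intro j hj
    have hjk : j ≠ k := (Finset.mem_erase.mp hj).1
    simp [hjk]

theorem bonferroni {Ω A : Type} [DecidableEq Ω] [Fintype A] [DecidableEq A] (Om F : Finset Ω)
    (X : A → Finset Ω) (hX : ∀ a, X a ⊆ Om) (f : Ω → ℝ) (hf : ∀ W ∈ Om, |f W| ≤ 1)
    (hF : ∀ W, W ∈ F ↔ (W ∈ Om ∧ ∀ a, W ∉ X a)) :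
    ∑ W ∈ F, f W ≤ ∑ W ∈ Om, f W - ∑ a, ∑ W ∈ X a, f W
      + ∑ a, ∑ b ∈ Finset.univ.filter (fun b => b ≠ a), ((X a ∩ X b).card : ℝ) := by
  have hFe : F = Om.filter (fun W => ∀ a, W ∉ X a) := by
    ext W
    rw [Finset.mem_filter]
    exact hF W
  have hXe : ∀ a, ∑ W ∈ X a, f W = ∑ W ∈ Om, (if W ∈ X a then f W else 0) := by
    intro a
    rw [← Finset.sum_filter]
    congr 1
    ext W
    rw [Finset.mem_filter]
    exact ⟨fun h => ⟨hX a h, h⟩, fun h => h.2⟩
  have hXX : ∀ a b, ((X a ∩ X b).card : ℝ) =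
      ∑ W ∈ Om, (if W ∈ X a then (1:ℝ) else 0) * (if W ∈ X b then (1:ℝ) else 0) := by
    intro a b
    have e : X a ∩ X b = Om.filter (fun W => W ∈ X a ∧ W ∈ X b) := by
      ext W
      rw [Finset.mem_filter, Finset.mem_inter]
      exact ⟨fun h => ⟨hX a h.1, h⟩, fun h => h.2⟩
    rw [e, Finset.card_filter]
    push_cast
    apply Finset.sum_congr rfl
    intro W _
    by_cases h1 : W ∈ X a <;> by_cases h2 : W ∈ X b <;> simp [h1, h2]
  rw [hFe, Finset.sum_filter, Finset.sum_congr rfl (fun a _ => hXe a)]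
  simp_rw [hXX]
  rw [Finset.sum_comm (s := Finset.univ) (t := Om)]
  have hsw : ∑ a, ∑ b ∈ Finset.univ.filter (fun b => b ≠ a),
      ∑ W ∈ Om, (if W ∈ X a then (1:ℝ) else 0) * (if W ∈ X b then (1:ℝ) else 0) =
      ∑ W ∈ Om, ∑ a, ∑ b ∈ Finset.univ.filter (fun b => b ≠ a),
        (if W ∈ X a then (1:ℝ) else 0) * (if W ∈ X b then (1:ℝ) else 0) := by
    rw [Finset.sum_comm (s := Om) (t := Finset.univ)]
    apply Finset.sum_congr rfl
    intro a _
    rw [Finset.sum_comm]
  rw [hsw, ← Finset.sum_sub_distrib, ← Finset.sum_add_distrib]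
  apply Finset.sum_le_sum
  intro W hW
  set n : ℕ := (Finset.univ.filter (fun a => W ∈ X a)).card with hn
  have hx : ∑ a, (if W ∈ X a then (1:ℝ) else 0) = n := by
    rw [hn, Finset.card_filter]
    push_cast
    rfl
  have h1 : ∑ a, (if W ∈ X a then f W else 0) = n * f W := by
    rw [← hx, Finset.sum_mul]
    apply Finset.sum_congr rfl
    intro a _
    split_ifs <;> ring
  have h2 : ∑ a, ∑ b ∈ Finset.univ.filter (fun b => b ≠ a),
        (if W ∈ X a then (1:ℝ) else 0) * (if W ∈ X b then (1:ℝ) else 0) = n * n - n := by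
    have h3 : ∀ a, ∑ b ∈ Finset.univ.filter (fun b => b ≠ a),
        (if W ∈ X a then (1:ℝ) else 0) * (if W ∈ X b then (1:ℝ) else 0) =
        (if W ∈ X a then (1:ℝ) else 0) * n - (if W ∈ X a then (1:ℝ) else 0) := by
      intro a
      rw [← Finset.mul_sum]
      have h4 : Finset.univ.filter (fun b => b ≠ a) = Finset.univ.erase a := by
        ext b
        simp
      have h5 := Finset.add_sum_erase Finset.univ (fun b => if W ∈ X b then (1:ℝ) else 0)
        (Finset.mem_univ a)
      rw [hx] at h5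
      rw [h4]
      have h6 : ∑ b ∈ Finset.univ.erase a, (if W ∈ X b then (1:ℝ) else 0) =
          n - (if W ∈ X a then (1:ℝ) else 0) := by
        linarith
      rw [h6]
      split_ifs <;> ring
    rw [Finset.sum_congr rfl (fun a _ => h3 a), Finset.sum_sub_distrib, ← Finset.sum_mul, hx]
  rw [h1, h2]
  have hfW := hf W hW
  rw [abs_le] at hfW
  by_cases h0 : ∀ a, W ∉ X a
  · rw [if_pos h0]
    have hn0 : n = 0 := by
      rw [hn, Finset.card_eq_zero, Finset.filter_eq_empty_iff]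
      intro a _
      exact h0 a
    rw [hn0]
    simp
  · rw [if_neg h0]
    push Not at h0
    obtain ⟨a, ha⟩ := h0
    have hn1 : 1 ≤ n := by
      rw [hn, Nat.one_le_iff_ne_zero, Finset.card_ne_zero]
      exact ⟨a, by simp [ha]⟩
    have hn1' : (1:ℝ) ≤ n := by exact_mod_cast hn1
    nlinarith [mul_nonneg (sub_nonneg.mpr hn1') (by linarith : (0:ℝ) ≤ n - f W)]

end Pool.Agent.H4.FP
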