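import Pool.Agent.H4.FP.Defs
import Pool.Agent.H4.FP.EngA

/-!
Module ENGB: the engine. Ω = box S, operations a = (m,s) ∈ M × Bool, K-card = |K|, Q = |M|.
X (m,s) = {W ∈ Ω : W (un m) ∉ I m, W j ∈ D (xor (p m j) s) for j ≠ un m}
        = piFinset (fun j => if j = un m then S \ I m else D (xor (p m j) s))      (`Xa`, `mem_fam`)
`fam_op` (closure): if u, v ∈ fam and the union satisfies the tag condition of (m,s) then so do u and v (down-sets).
`card_Xa`: ≤ 2 h * h^(|K|-1).
`fam_compl`: Ω \ fam = ⋃ X a.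
`fam_tight`: bonferroni with X; Σ over (m,s): un m = k: (Σ_{S \ I m} f) h^(|K|-1) = -(Σ_{I m} f) h^(|K|-1), two signs;
  un m ≠ k: the two signs add up to (Σ_{D false} f + Σ_{D true} f) |S \ I m| h^(|K|-2) (as s runs over Bool, xor (p m k) s runs over Bool),
  absolute value ≤ δ 2h h^(|K|-2) = 2 δ h^(|K|-1);
  pairs a ≠ b: X a ∩ X b ⊆ piFinset (fun l => if l = un a ∨ l = un b then S else if l = j then D false ∩ D true else D false-or-true):
  card ≤ δ (2h)^2 h^(|K|-3) if un a ≠ un b and ≤ δ 2h h^(|K|-2) if equal; both ≤ 4 δ h^(|K|-1); at most (2Q)^2 pairs.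
-/

set_option autoImplicit false

namespace Pool.Agent.H4.FP

variable {σ K M : Type} [DecidableEq σ] [Fintype K] [DecidableEq K] [Fintype M] [DecidableEq M]

structure Setup (S : Finset σ) (D : Bool → Finset σ) (un : M → K) (I : M → Finset σ)
    (p : M → K → Bool) (h : ℕ) (δ : ℝ) : Prop where
  hpos : 0 < h
  cardS : S.card = 2 * h
  subD : ∀ b, D b ⊆ S
  cardD : ∀ b, (D b).card = h
  inter : ((D false ∩ D true).card : ℝ) ≤ δ
  subI : ∀ m, I m ⊆ S
  pat : ∀ (m m' : M) (s s' : Bool), (m, s) ≠ (m', s') →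
    ∃ j, j ≠ un m ∧ j ≠ un m' ∧ xor (p m j) s ≠ xor (p m' j) s'
  cardK : 3 ≤ Fintype.card K

/-- the set removed by the operation `a` -/
def Xa (S : Finset σ) (D : Bool → Finset σ) (un : M → K) (I : M → Finset σ)
    (p : M → K → Bool) (a : M × Bool) : Finset (K → σ) :=
  Fintype.piFinset fun j => if j = un a.1 then S \ I a.1 else D (xor (p a.1 j) a.2)

theorem engB_mem_Xa {S : Finset σ} {D : Bool → Finset σ} {un : M → K} {I : M → Finset σ}
    {p : M → K → Bool} (a : M × Bool) (W : K → σ) :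
    W ∈ Xa S D un I p a ↔
      W (un a.1) ∈ S \ I a.1 ∧ ∀ j, j ≠ un a.1 → W j ∈ D (xor (p a.1 j) a.2) := by
  unfold Xa
  rw [Fintype.mem_piFinset]
  constructor
  · intro h
    refine ⟨?_, fun j hj => ?_⟩
    · have := h (un a.1)
      rwa [if_pos rfl] at this
    · have := h j
      rwa [if_neg hj] at this
  · rintro ⟨h1, h2⟩ j
    by_cases hj : j = un a.1
    · rw [if_pos hj, hj]
      exact h1
    · rw [if_neg hj]
      exact h2 j hj

theorem engB_mem_fam {S : Finset σ} {D : Bool → Finset σ} {un : M → K} {I : M → Finset σ}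
    {p : M → K → Bool} (W : K → σ) :
    W ∈ fam S D un I p ↔ (∀ j, W j ∈ S) ∧
      ∀ m : M, ∀ s : Bool, (∀ j, j ≠ un m → W j ∈ D (xor (p m j) s)) → W (un m) ∈ I m := by
  unfold fam
  rw [Finset.mem_filter, Fintype.mem_piFinset]

theorem mem_fam_iff {S : Finset σ} {D : Bool → Finset σ} {un : M → K} {I : M → Finset σ}
    {p : M → K → Bool} {h : ℕ} {δ : ℝ} (hs : Setup S D un I p h δ) (W : K → σ) :
    W ∈ fam S D un I p ↔
      (W ∈ Fintype.piFinset (fun _ : K => S) ∧ ∀ a, W ∉ Xa S D un I p a) := by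
  rw [engB_mem_fam, Fintype.mem_piFinset]
  constructor
  · rintro ⟨h1, h2⟩
    refine ⟨h1, fun a ha => ?_⟩
    rw [engB_mem_Xa] at ha
    exact (Finset.mem_sdiff.1 ha.1).2 (h2 a.1 a.2 ha.2)
  · rintro ⟨h1, h2⟩
    refine ⟨h1, fun m s hms => ?_⟩
    by_contra hI
    apply h2 (m, s)
    rw [engB_mem_Xa]
    exact ⟨Finset.mem_sdiff.2 ⟨h1 _, hI⟩, hms⟩

theorem Xa_subset {S : Finset σ} {D : Bool → Finset σ} {un : M → K} {I : M → Finset σ}
    {p : M → K → Bool} {h : ℕ} {δ : ℝ} (hs : Setup S D un I p h δ) (a : M × Bool) :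
    Xa S D un I p a ⊆ Fintype.piFinset (fun _ : K => S) := by
  intro W hW
  rw [engB_mem_Xa] at hW
  rw [Fintype.mem_piFinset]
  intro j
  by_cases hj : j = un a.1
  · rw [hj]
    exact (Finset.mem_sdiff.1 hW.1).1
  · exact hs.subD _ (hW.2 j hj)

theorem fam_op {S : Finset σ} {D : Bool → Finset σ} {un : M → K} {I : M → Finset σ}
    {p : M → K → Bool} (op : σ → σ → σ)
    (hS : ∀ u ∈ S, ∀ v ∈ S, op u v ∈ S)
    (hD : ∀ b, ∀ u ∈ S, ∀ v ∈ S, op u v ∈ D b → u ∈ D b ∧ v ∈ D b)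
    (hI : ∀ m, ∀ u ∈ I m, ∀ v ∈ I m, op u v ∈ I m) :
    ∀ u ∈ fam S D un I p, ∀ v ∈ fam S D un I p, (fun k => op (u k) (v k)) ∈ fam S D un I p := by
  intro u hu v hv
  rw [engB_mem_fam] at hu hv ⊢
  refine ⟨fun j => hS _ (hu.1 j) _ (hv.1 j), fun m s hms => ?_⟩
  have h1 : ∀ j, j ≠ un m → u j ∈ D (xor (p m j) s) ∧ v j ∈ D (xor (p m j) s) := fun j hj =>
    hD _ _ (hu.1 j) _ (hv.1 j) (hms j hj)
  exact hI m _ (hu.2 m s fun j hj => (h1 j hj).1) _ (hv.2 m s fun j hj => (h1 j hj).2)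

theorem engB_prod {S : Finset σ} {D : Bool → Finset σ} {un : M → K} {I : M → Finset σ}
    {p : M → K → Bool} {h : ℕ} {δ : ℝ} (hs : Setup S D un I p h δ) (a : M × Bool) :
    ∏ j ∈ Finset.univ.erase (un a.1),
      (((if j = un a.1 then S \ I a.1 else D (xor (p a.1 j) a.2)) : Finset σ).card : ℝ) =
      (h : ℝ) ^ (Fintype.card K - 1) := by
  rw [Finset.prod_congr rfl (g := fun _ => (h : ℝ)), Finset.prod_const,
    Finset.card_erase_of_mem (Finset.mem_univ _), Finset.card_univ]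
  intro j hj
  rw [if_neg (Finset.ne_of_mem_erase hj), hs.cardD]

theorem engB_card_sdiff {S : Finset σ} {D : Bool → Finset σ} {un : M → K} {I : M → Finset σ}
    {p : M → K → Bool} {h : ℕ} {δ : ℝ} (hs : Setup S D un I p h δ) (m : M) :
    ((S \ I m).card : ℝ) ≤ 2 * h := by
  have h1 : (S \ I m).card ≤ 2 * h := by
    rw [← hs.cardS]
    exact Finset.card_le_card Finset.sdiff_subset
  exact_mod_cast h1

theorem engB_card_Xa {S : Finset σ} {D : Bool → Finset σ} {un : M → K} {I : M → Finset σ}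
    {p : M → K → Bool} {h : ℕ} {δ : ℝ} (hs : Setup S D un I p h δ) (a : M × Bool) :
    ((Xa S D un I p a).card : ℝ) ≤ 2 * (h : ℝ) ^ (Fintype.card K) := by
  unfold Xa
  rw [Fintype.card_piFinset, Nat.cast_prod, ← Finset.mul_prod_erase _ _ (Finset.mem_univ (un a.1)),
    engB_prod hs a, if_pos rfl]
  have h1 := engB_card_sdiff hs a.1
  have hK := hs.cardK
  have h2 : (h : ℝ) ^ (Fintype.card K) = h * (h : ℝ) ^ (Fintype.card K - 1) := by
    rw [← pow_succ']
    congr 1
    omega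
  rw [h2, ← mul_assoc]
  exact mul_le_mul_of_nonneg_right h1 (by positivity)

theorem fam_compl {S : Finset σ} {D : Bool → Finset σ} {un : M → K} {I : M → Finset σ}
    {p : M → K → Bool} {h : ℕ} {δ : ℝ} (hs : Setup S D un I p h δ) :
    (((Fintype.piFinset (fun _ : K => S)) \ fam S D un I p).card : ℝ)
      ≤ 4 * (Fintype.card M : ℝ) * (h : ℝ) ^ (Fintype.card K) := by
  classical
  have h1 : (Fintype.piFinset (fun _ : K => S)) \ fam S D un I p ⊆
      (Finset.univ : Finset (M × Bool)).biUnion (fun a => Xa S D un I p a) := by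
    intro W hW
    rw [Finset.mem_sdiff, mem_fam_iff hs] at hW
    obtain ⟨h2, h3⟩ := hW
    by_contra hno
    apply h3
    refine ⟨h2, fun a ha => hno ?_⟩
    exact Finset.mem_biUnion.2 ⟨a, Finset.mem_univ a, ha⟩
  have h2 : ((Fintype.piFinset (fun _ : K => S)) \ fam S D un I p).card ≤
      ∑ a : M × Bool, (Xa S D un I p a).card :=
    (Finset.card_le_card h1).trans Finset.card_biUnion_le
  have h3 : (((Fintype.piFinset (fun _ : K => S)) \ fam S D un I p).card : ℝ) ≤
      ∑ a : M × Bool, ((Xa S D un I p a).card : ℝ) := by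
    exact_mod_cast h2
  refine h3.trans ?_
  have h4 : ∑ a : M × Bool, ((Xa S D un I p a).card : ℝ) ≤
      ∑ _a : M × Bool, 2 * (h : ℝ) ^ (Fintype.card K) :=
    Finset.sum_le_sum fun a _ => engB_card_Xa hs a
  refine h4.trans (le_of_eq ?_)
  rw [Finset.sum_const, Finset.card_univ, Fintype.card_prod, Fintype.card_bool, nsmul_eq_mul]
  push_cast
  ring

theorem engB_sum_box {S : Finset σ} {D : Bool → Finset σ} {un : M → K} {I : M → Finset σ}
    {p : M → K → Bool} {h : ℕ} {δ : ℝ} (hs : Setup S D un I p h δ) (f : σ → ℝ) (k : K) :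
    ∑ W ∈ Fintype.piFinset (fun _ : K => S), f (W k) =
      (2 * (h : ℝ)) ^ (Fintype.card K - 1) * ∑ w ∈ S, f w := by
  rw [sum_box, Finset.prod_const, Finset.card_erase_of_mem (Finset.mem_univ _),
    Finset.card_univ, hs.cardS, mul_comm]
  push_cast
  rfl

/-- slack coordinates -/
theorem fam_slack {S : Finset σ} {D : Bool → Finset σ} {un : M → K} {I : M → Finset σ}
    {p : M → K → Bool} {h : ℕ} {δ : ℝ} (hs : Setup S D un I p h δ) (f : σ → ℝ)
    (hf : ∀ w, |f w| ≤ 1) (k : K) :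
    ∑ W ∈ fam S D un I p, f (W k)
      ≤ (2 * (h : ℝ)) ^ (Fintype.card K - 1) * ∑ w ∈ S, f w
        + 4 * (Fintype.card M : ℝ) * (h : ℝ) ^ (Fintype.card K) := by
  have hsub : fam S D un I p ⊆ Fintype.piFinset (fun _ : K => S) := by
    intro W hW
    exact ((mem_fam_iff hs W).1 hW).1
  have h1 := Finset.sum_sdiff (f := fun W : K → σ => f (W k)) hsub
  rw [engB_sum_box hs] at h1
  have h2 : -((((Fintype.piFinset (fun _ : K => S)) \ fam S D un I p).card : ℝ)) ≤
      ∑ W ∈ (Fintype.piFinset (fun _ : K => S)) \ fam S D un I p, f (W k) := by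
    have h3 : ∑ _W ∈ (Fintype.piFinset (fun _ : K => S)) \ fam S D un I p, (-1 : ℝ) ≤
        ∑ W ∈ (Fintype.piFinset (fun _ : K => S)) \ fam S D un I p, f (W k) :=
      Finset.sum_le_sum fun W _ => (abs_le.1 (hf (W k))).1
    rw [Finset.sum_const, nsmul_eq_mul, mul_neg, mul_one] at h3
    exact h3
  have h3 := fam_compl hs
  linarith

/-- number of members -/
theorem fam_card {S : Finset σ} {D : Bool → Finset σ} {un : M → K} {I : M → Finset σ}
    {p : M → K → Bool} {h : ℕ} {δ : ℝ} (hs : Setup S D un I p h δ)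
    (h2 : 4 * Fintype.card M + 2 ≤ 2 ^ (Fintype.card K)) :
    2 ≤ (fam S D un I p).card := by
  have hsub : fam S D un I p ⊆ Fintype.piFinset (fun _ : K => S) := by
    intro W hW
    exact ((mem_fam_iff hs W).1 hW).1
  have h1 : (((Fintype.piFinset (fun _ : K => S)) \ fam S D un I p).card : ℝ) +
      ((fam S D un I p).card : ℝ) = ((Fintype.piFinset (fun _ : K => S)).card : ℝ) := by
    exact_mod_cast Finset.card_sdiff_add_card_eq_card hsub
  have h3 := fam_compl hs
  have h4 : ((Fintype.piFinset (fun _ : K => S)).card : ℝ) =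
      2 ^ (Fintype.card K) * (h : ℝ) ^ (Fintype.card K) := by
    rw [Fintype.card_piFinset, Finset.prod_const, Finset.card_univ, hs.cardS]
    push_cast
    rw [mul_pow]
  have h5 : (4 * (Fintype.card M : ℝ) + 2) ≤ 2 ^ (Fintype.card K) := by exact_mod_cast h2
  have h6 : (1 : ℝ) ≤ (h : ℝ) ^ (Fintype.card K) := by
    apply one_le_pow₀
    exact_mod_cast hs.hpos
  have h7 : (2 : ℝ) ≤ ((fam S D un I p).card : ℝ) := by
    rw [h4] at h1
    nlinarith [mul_le_mul_of_nonneg_right h5 (zero_le_one.trans h6)]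
  exact_mod_cast h7

end Pool.Agent.H4.FP
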