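import Pool.Agent.H4.FP.EngB

/-!
Module ENGC (about 150 lines): the second order bound for tight coordinates. See the header of EngB.
-/

set_option autoImplicit false

namespace Pool.Agent.H4.FP

variable {σ K M : Type} [DecidableEq σ] [Fintype K] [DecidableEq K] [Fintype M] [DecidableEq M]

/-- one operation at the unit k -/
theorem sum_Xa_central {S : Finset σ} {D : Bool → Finset σ} {un : M → K} {I : M → Finset σ}
    {p : M → K → Bool} {h : ℕ} {δ : ℝ} (hs : Setup S D un I p h δ) (f : σ → ℝ)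
    (h0 : ∑ w ∈ S, f w = 0) (m : M) (s : Bool) :
    ∑ W ∈ Xa S D un I p (m, s), f (W (un m))
      = - (h : ℝ) ^ (Fintype.card K - 1) * ∑ w ∈ I m, f w := by
  have h1 := engB_prod hs (m, s)
  unfold Xa
  rw [sum_box]
  simp only [if_true] at h1 ⊢
  rw [h1]
  have h2 := Finset.sum_sdiff (f := f) (hs.subI m)
  rw [h0] at h2
  have h3 : ∑ w ∈ S \ I m, f w = - ∑ w ∈ I m, f w := by linarith
  rw [h3]
  ring

theorem engC_prod {S : Finset σ} {D : Bool → Finset σ} {un : M → K} {I : M → Finset σ}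
    {p : M → K → Bool} {h : ℕ} {δ : ℝ} (hs : Setup S D un I p h δ) (a : M × Bool) (k : K)
    (hk : k ≠ un a.1) (A : Finset σ) :
    ∏ j ∈ Finset.univ.erase k,
      (((if j = un a.1 then A else D (xor (p a.1 j) a.2)) : Finset σ).card : ℝ) =
      (A.card : ℝ) * (h : ℝ) ^ (Fintype.card K - 2) := by
  rw [← Finset.mul_prod_erase _ _ (Finset.mem_erase.2 ⟨Ne.symm hk, Finset.mem_univ (un a.1)⟩),
    if_pos rfl]
  congr 1
  rw [Finset.prod_congr rfl (g := fun _ => (h : ℝ)), Finset.prod_const,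
    Finset.card_erase_of_mem (Finset.mem_erase.2 ⟨Ne.symm hk, Finset.mem_univ (un a.1)⟩),
    Finset.card_erase_of_mem (Finset.mem_univ _), Finset.card_univ]
  · rfl
  · intro j hj
    rw [if_neg (Finset.ne_of_mem_erase hj), hs.cardD]

theorem engC_pow {S : Finset σ} {D : Bool → Finset σ} {un : M → K} {I : M → Finset σ}
    {p : M → K → Bool} {h : ℕ} {δ : ℝ} (hs : Setup S D un I p h δ) :
    (h : ℝ) ^ (Fintype.card K - 1) = h * (h : ℝ) ^ (Fintype.card K - 2) := by
  have hK := hs.cardK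
  rw [← pow_succ']
  congr 1
  omega

/-- the two signs of one operation at another unit -/
theorem sum_Xa_tag {S : Finset σ} {D : Bool → Finset σ} {un : M → K} {I : M → Finset σ}
    {p : M → K → Bool} {h : ℕ} {δ : ℝ} (hs : Setup S D un I p h δ) (f : σ → ℝ)
    (ht : |∑ w ∈ D false, f w + ∑ w ∈ D true, f w| ≤ δ) (m : M) (k : K) (hk : k ≠ un m) :
    |∑ W ∈ Xa S D un I p (m, false), f (W k) + ∑ W ∈ Xa S D un I p (m, true), f (W k)|
      ≤ 2 * δ * (h : ℝ) ^ (Fintype.card K - 1) := by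
  have h1 : ∀ s : Bool, ∑ W ∈ Xa S D un I p (m, s), f (W k) =
      (∑ w ∈ D (xor (p m k) s), f w) * (((S \ I m).card : ℝ) * (h : ℝ) ^ (Fintype.card K - 2)) := by
    intro s
    have h2 := engC_prod hs (m, s) k hk (S \ I m)
    unfold Xa
    rw [sum_box]
    simp only at h2 ⊢
    rw [h2, if_neg hk]
  rw [h1, h1, ← add_mul, abs_mul]
  have h3 : |∑ w ∈ D (xor (p m k) false), f w + ∑ w ∈ D (xor (p m k) true), f w| ≤ δ := by
    cases hp : p m k
    · exact ht
    · rw [add_comm]
      exact ht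
  have h4 : |((S \ I m).card : ℝ) * (h : ℝ) ^ (Fintype.card K - 2)| ≤
      2 * (h : ℝ) ^ (Fintype.card K - 1) := by
    rw [abs_of_nonneg (by positivity), engC_pow hs, ← mul_assoc]
    exact mul_le_mul_of_nonneg_right (engB_card_sdiff hs m) (by positivity)
  have h5 : (0 : ℝ) ≤ δ := (abs_nonneg _).trans h3
  calc |∑ w ∈ D (xor (p m k) false), f w + ∑ w ∈ D (xor (p m k) true), f w| *
        |((S \ I m).card : ℝ) * (h : ℝ) ^ (Fintype.card K - 2)|
      ≤ δ * (2 * (h : ℝ) ^ (Fintype.card K - 1)) :=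
        mul_le_mul h3 h4 (abs_nonneg _) h5
    _ = 2 * δ * (h : ℝ) ^ (Fintype.card K - 1) := by ring

/-- two different operations -/
theorem card_Xa_inter {S : Finset σ} {D : Bool → Finset σ} {un : M → K} {I : M → Finset σ}
    {p : M → K → Bool} {h : ℕ} {δ : ℝ} (hs : Setup S D un I p h δ) (a b : M × Bool) (hab : b ≠ a) :
    ((Xa S D un I p a ∩ Xa S D un I p b).card : ℝ)
      ≤ 4 * δ * (h : ℝ) ^ (Fintype.card K - 1) := by
  obtain ⟨j0, h1, h2, h3⟩ := hs.pat a.1 b.1 a.2 b.2 (fun h => hab h.symm)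
  have hsub : Xa S D un I p a ∩ Xa S D un I p b ⊆ Fintype.piFinset (fun j =>
      if j = j0 then D false ∩ D true
      else (if j = un a.1 then S else D (xor (p a.1 j) a.2))) := by
    intro W hW
    rw [Finset.mem_inter, engB_mem_Xa, engB_mem_Xa] at hW
    obtain ⟨⟨ha1, ha2⟩, ⟨_, hb2⟩⟩ := hW
    rw [Fintype.mem_piFinset]
    intro j
    by_cases hj : j = j0
    · rw [if_pos hj, hj]
      have g1 := ha2 j0 h1
      have g2 := hb2 j0 h2
      revert g1 g2 h3
      generalize xor (p a.1 j0) a.2 = x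
      generalize xor (p b.1 j0) b.2 = y
      intro h3 g1 g2
      cases x <;> cases y
      · exact absurd rfl h3
      · exact Finset.mem_inter.2 ⟨g1, g2⟩
      · exact Finset.mem_inter.2 ⟨g2, g1⟩
      · exact absurd rfl h3
    · rw [if_neg hj]
      by_cases hj2 : j = un a.1
      · rw [if_pos hj2, hj2]
        exact (Finset.mem_sdiff.1 ha1).1
      · rw [if_neg hj2]
        exact ha2 j hj2
  have h4 : ((Xa S D un I p a ∩ Xa S D un I p b).card : ℝ) ≤
      ∏ j : K, (((if j = j0 then D false ∩ D true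
      else (if j = un a.1 then S else D (xor (p a.1 j) a.2)) : Finset σ)).card : ℝ) := by
    have h5 := Finset.card_le_card hsub
    rw [Fintype.card_piFinset] at h5
    exact_mod_cast h5
  refine h4.trans ?_
  rw [← Finset.mul_prod_erase _ _ (Finset.mem_univ j0), if_pos rfl]
  have h5 : ∏ j ∈ Finset.univ.erase j0, (((if j = j0 then D false ∩ D true
      else (if j = un a.1 then S else D (xor (p a.1 j) a.2)) : Finset σ)).card : ℝ) =
      (S.card : ℝ) * (h : ℝ) ^ (Fintype.card K - 2) := by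
    rw [← engC_prod hs a j0 h1 S]
    refine Finset.prod_congr rfl fun j hj => ?_
    rw [if_neg (Finset.ne_of_mem_erase hj)]
  rw [h5, hs.cardS, engC_pow hs]
  have h6 : (0 : ℝ) ≤ ((D false ∩ D true).card : ℝ) := Nat.cast_nonneg _
  have h7 : (0 : ℝ) ≤ δ := h6.trans hs.inter
  have h8 : (0 : ℝ) ≤ (h : ℝ) * (h : ℝ) ^ (Fintype.card K - 2) := by positivity
  push_cast
  calc ((D false ∩ D true).card : ℝ) * (2 * (h : ℝ) * (h : ℝ) ^ (Fintype.card K - 2))
      ≤ δ * (2 * (h : ℝ) * (h : ℝ) ^ (Fintype.card K - 2)) :=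
        mul_le_mul_of_nonneg_right hs.inter (by positivity)
    _ ≤ 4 * δ * ((h : ℝ) * (h : ℝ) ^ (Fintype.card K - 2)) := by
        nlinarith [mul_nonneg h7 h8]

theorem fam_tight {S : Finset σ} {D : Bool → Finset σ} {un : M → K} {I : M → Finset σ}
    {p : M → K → Bool} {h : ℕ} {δ : ℝ} (hs : Setup S D un I p h δ) (f : σ → ℝ)
    (hf : ∀ w, |f w| ≤ 1) (h0 : ∑ w ∈ S, f w = 0)
    (ht : |∑ w ∈ D false, f w + ∑ w ∈ D true, f w| ≤ δ) (k : K) :
    ∑ W ∈ fam S D un I p, f (W k)
      ≤ 2 * (h : ℝ) ^ (Fintype.card K - 1) *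
          ∑ m ∈ Finset.univ.filter (fun m => un m = k), ∑ w ∈ I m, f w
        + (2 * (Fintype.card M : ℝ) + 16 * (Fintype.card M : ℝ) ^ 2) * δ
            * (h : ℝ) ^ (Fintype.card K - 1) := by
  have hδ : (0 : ℝ) ≤ δ := (Nat.cast_nonneg _).trans hs.inter
  set H : ℝ := (h : ℝ) ^ (Fintype.card K - 1) with hH
  have hH0 : 0 ≤ H := by positivity
  have hb := bonferroni (Fintype.piFinset (fun _ : K => S)) (fam S D un I p)
    (fun a : M × Bool => Xa S D un I p a) (fun a => Xa_subset hs a) (fun W => f (W k))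
    (fun W _ => hf (W k)) (fun W => mem_fam_iff hs W)
  rw [engB_sum_box hs, h0, mul_zero, zero_sub] at hb
  -- first order terms
  have h1 : ∑ a : M × Bool, ∑ W ∈ Xa S D un I p a, f (W k) =
      ∑ m : M, (∑ W ∈ Xa S D un I p (m, false), f (W k) +
        ∑ W ∈ Xa S D un I p (m, true), f (W k)) := by
    rw [Fintype.sum_prod_type]
    refine Finset.sum_congr rfl fun m _ => ?_
    rw [Fintype.sum_bool, add_comm]
  have h2 : ∀ m : M, (if un m = k then -(2 * H * ∑ w ∈ I m, f w) else 0) - 2 * δ * H ≤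
      (∑ W ∈ Xa S D un I p (m, false), f (W k) + ∑ W ∈ Xa S D un I p (m, true), f (W k)) := by
    intro m
    have hnn : 0 ≤ 2 * δ * H := by positivity
    by_cases hm : un m = k
    · rw [if_pos hm, ← hm, sum_Xa_central hs f h0, sum_Xa_central hs f h0]
      linarith
    · rw [if_neg hm]
      have := (abs_le.1 (sum_Xa_tag hs f ht m k (Ne.symm hm))).1
      linarith
  have h3 : -(2 * H * ∑ m ∈ Finset.univ.filter (fun m => un m = k), ∑ w ∈ I m, f w) -
      (Fintype.card M : ℝ) * (2 * δ * H) ≤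
      ∑ a : M × Bool, ∑ W ∈ Xa S D un I p a, f (W k) := by
    rw [h1]
    have h4 := Finset.sum_le_sum fun m (_ : m ∈ (Finset.univ : Finset M)) => h2 m
    rw [Finset.sum_sub_distrib, Finset.sum_const, Finset.card_univ, nsmul_eq_mul,
      ← Finset.sum_filter] at h4
    refine le_trans (le_of_eq ?_) h4
    congr 1
    rw [Finset.mul_sum, ← Finset.sum_neg_distrib]
  -- second order terms
  have h5 : ∑ a : M × Bool, ∑ b ∈ Finset.univ.filter (fun b => b ≠ a),
      ((Xa S D un I p a ∩ Xa S D un I p b).card : ℝ) ≤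
      16 * (Fintype.card M : ℝ) ^ 2 * (δ * H) := by
    have h6 : ∀ a : M × Bool, ∑ b ∈ Finset.univ.filter (fun b => b ≠ a),
        ((Xa S D un I p a ∩ Xa S D un I p b).card : ℝ) ≤
        2 * (Fintype.card M : ℝ) * (4 * δ * H) := by
      intro a
      have h7 : ∑ b ∈ Finset.univ.filter (fun b => b ≠ a),
          ((Xa S D un I p a ∩ Xa S D un I p b).card : ℝ) ≤
          ∑ _b ∈ Finset.univ.filter (fun b : M × Bool => b ≠ a), 4 * δ * H :=
        Finset.sum_le_sum fun b hb => card_Xa_inter hs a b (Finset.mem_filter.1 hb).2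
      refine h7.trans ?_
      rw [Finset.sum_const, nsmul_eq_mul]
      refine mul_le_mul_of_nonneg_right ?_ (by positivity)
      have h8 : (Finset.univ.filter (fun b : M × Bool => b ≠ a)).card ≤
          Fintype.card (M × Bool) := Finset.card_le_univ _
      rw [Fintype.card_prod, Fintype.card_bool] at h8
      have h9 : ((Finset.univ.filter (fun b : M × Bool => b ≠ a)).card : ℝ) ≤
          ((Fintype.card M * 2 : ℕ) : ℝ) := by exact_mod_cast h8
      push_cast at h9
      linarith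
    have h7 := Finset.sum_le_sum fun a (_ : a ∈ (Finset.univ : Finset (M × Bool))) => h6 a
    rw [Finset.sum_const, Finset.card_univ, Fintype.card_prod, Fintype.card_bool,
      nsmul_eq_mul] at h7
    refine h7.trans (le_of_eq ?_)
    push_cast
    ring
  have h6 : (2 * (Fintype.card M : ℝ) + 16 * (Fintype.card M : ℝ) ^ 2) * δ * H =
      (Fintype.card M : ℝ) * (2 * δ * H) + 16 * (Fintype.card M : ℝ) ^ 2 * (δ * H) := by ring
  rw [h6]
  linarith

end Pool.Agent.H4.FP
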