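import Pool.Agent.H4.FP.Defs

/-!
Module FRK (about 80 lines): first consequences of Frankl's conjecture.

`frankl_pi`: Frankl for families in (K → D → Finset ℕ), K, D finite.  Encode: supp w = the finset of all
 Encodable.encode (or Nat.pair based codes; K and D are finite types: use (Fintype.equivFin) to get numbers)
 of triples (k,i,x) with x ∈ w k i.  supp is injective and supp (u ⊔ v) = supp u ∪ supp v.  A = F.image supp is union-closed, same
 cardinality; as F.card ≥ 2 some member has a nonempty support (only ⊥ has empty support).  Frankl gives a code e in the universe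
 with |A| ≤ 2 freq A e; e codes (k,i,x) and the members of A containing e are the images of the w with x ∈ w k i.
`tight_facts`: B union-closed, nonempty universe, all 2 freq ≤ |B|.  Frankl gives z with 2 freq = |B|.  If ∅ ∉ B then
 insert ∅ B is union-closed with |B|+1 members and the same frequencies: 2 freq ≤ |B| < |B|+1, contradiction to Frankl.
-/

set_option autoImplicit false

namespace Pool.Agent.H4.FP

/-- the support of a configuration, coded by numbers -/
def frkSupp {K D : Type} [Fintype K] [Fintype D] (c : K × D × ℕ ↪ ℕ) (w : K → D → Finset ℕ) :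
    Finset ℕ :=
  (Finset.univ : Finset K).biUnion fun k => (Finset.univ : Finset D).biUnion fun i =>
    (w k i).image fun x => c (k, i, x)

theorem mem_frkSupp {K D : Type} [Fintype K] [Fintype D] (c : K × D × ℕ ↪ ℕ)
    (w : K → D → Finset ℕ) (e : ℕ) :
    e ∈ frkSupp c w ↔ ∃ k i x, x ∈ w k i ∧ c (k, i, x) = e := by
  simp [frkSupp]

theorem mem_frkSupp_code {K D : Type} [Fintype K] [Fintype D] (c : K × D × ℕ ↪ ℕ)
    (w : K → D → Finset ℕ) (k : K) (i : D) (x : ℕ) :
    c (k, i, x) ∈ frkSupp c w ↔ x ∈ w k i := by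
  rw [mem_frkSupp]
  constructor
  · rintro ⟨k', i', x', hx, h⟩
    have h1 := c.injective h
    simp only [Prod.mk.injEq] at h1
    obtain ⟨rfl, rfl, rfl⟩ := h1
    exact hx
  · intro hx
    exact ⟨k, i, x, hx, rfl⟩

theorem frkSupp_inj {K D : Type} [Fintype K] [Fintype D] (c : K × D × ℕ ↪ ℕ) :
    Function.Injective (frkSupp c) := by
  intro u v h
  funext k i
  ext x
  rw [← mem_frkSupp_code c, ← mem_frkSupp_code c, h]

theorem frkSupp_union {K D : Type} [Fintype K] [Fintype D] (c : K × D × ℕ ↪ ℕ)
    (u v : K → D → Finset ℕ) : frkSupp c (fun k i => u k i ∪ v k i) = frkSupp c u ∪ frkSupp c v := by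
  ext e
  rw [Finset.mem_union, mem_frkSupp, mem_frkSupp, mem_frkSupp]
  constructor
  · rintro ⟨k, i, x, hx, h⟩
    rcases Finset.mem_union.1 hx with h1 | h1
    · exact Or.inl ⟨k, i, x, h1, h⟩
    · exact Or.inr ⟨k, i, x, h1, h⟩
  · rintro (⟨k, i, x, hx, h⟩ | ⟨k, i, x, hx, h⟩)
    · exact ⟨k, i, x, Finset.mem_union_left _ hx, h⟩
    · exact ⟨k, i, x, Finset.mem_union_right _ hx, h⟩

theorem frankl_pi (hF : Frankl) {K D : Type} [Fintype K] [DecidableEq K] [Fintype D] [DecidableEq D]
    (F : Finset (K → D → Finset ℕ))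
    (hcl : ∀ u ∈ F, ∀ v ∈ F, (fun k i => u k i ∪ v k i) ∈ F) (hne : 2 ≤ F.card) :
    ∃ k i x, (∃ w ∈ F, x ∈ w k i) ∧ F.card ≤ 2 * (F.filter (fun w => x ∈ w k i)).card := by
  classical
  obtain ⟨c⟩ : Nonempty (K × D × ℕ ↪ ℕ) := by
    have : Countable (K × D × ℕ) := inferInstance
    exact nonempty_embedding_nat _
  set A := F.image (frkSupp c) with hA
  have hcard : A.card = F.card := Finset.card_image_of_injective _ (frkSupp_inj c)
  have hUC : UC A := by
    intro X hX Y hY
    obtain ⟨u, hu, rfl⟩ := Finset.mem_image.1 hX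
    obtain ⟨v, hv, rfl⟩ := Finset.mem_image.1 hY
    rw [← frkSupp_union]
    exact Finset.mem_image_of_mem _ (hcl u hu v hv)
  have hex : ∃ X ∈ A, X.Nonempty := by
    by_contra hcon
    push Not at hcon
    have h1 : A ⊆ {∅} := by
      intro X hX
      rw [Finset.mem_singleton]
      exact Finset.not_nonempty_iff_eq_empty.1 (by simpa using hcon X hX)
    have h2 := Finset.card_le_card h1
    rw [Finset.card_singleton] at h2
    omega
  obtain ⟨e, he, hle⟩ := hF A hUC hex
  obtain ⟨S, hS, heS⟩ : ∃ S ∈ A, e ∈ S := by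
    rw [Finset.mem_sup] at he
    exact he
  obtain ⟨w, hw, rfl⟩ := Finset.mem_image.1 hS
  obtain ⟨k, i, x, hx, rfl⟩ := (mem_frkSupp c w e).1 heS
  refine ⟨k, i, x, ⟨w, hw, hx⟩, ?_⟩
  have h3 : freq A (c (k, i, x)) = (F.filter (fun w => x ∈ w k i)).card := by
    unfold freq
    rw [hA, Finset.filter_image, Finset.card_image_of_injective _ (frkSupp_inj c)]
    congr 1
    refine Finset.filter_congr fun w _ => ?_
    rw [mem_frkSupp_code]
  rw [← hcard, ← h3]
  exact hle

theorem tight_facts (hF : Frankl) (B : Finset (Finset ℕ)) (hB : UC B) (hU : (B.sup id).Nonempty)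
    (hf : ∀ x, 2 * freq B x ≤ B.card) :
    ∅ ∈ B ∧ ∃ z ∈ B.sup id, 2 * freq B z = B.card := by
  classical
  have hex : ∃ X ∈ B, X.Nonempty := by
    obtain ⟨x, hx⟩ := hU
    rw [Finset.mem_sup] at hx
    obtain ⟨S, hS, hxS⟩ := hx
    exact ⟨S, hS, x, hxS⟩
  constructor
  · by_contra hcon
    have hUC : UC (insert ∅ B) := by
      intro X hX Y hY
      rw [Finset.mem_insert] at hX hY ⊢
      rcases hX with rfl | hX <;> rcases hY with rfl | hY
      · left
        simp
      · right
        simpa using hY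
      · right
        simpa using hX
      · exact Or.inr (hB X hX Y hY)
    obtain ⟨X, hX, hXne⟩ := hex
    obtain ⟨x, hx, hle⟩ := hF (insert ∅ B) hUC ⟨X, Finset.mem_insert_of_mem hX, hXne⟩
    rw [Finset.card_insert_of_notMem hcon] at hle
    have h1 : freq (insert ∅ B) x = freq B x := by
      unfold freq
      rw [Finset.filter_insert]
      simp
    rw [h1] at hle
    have := hf x
    omega
  · obtain ⟨z, hz, hle⟩ := hF B hB hex
    exact ⟨z, hz, le_antisymm (hf z) hle⟩

end Pool.Agent.H4.FP
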