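import Pool.Agent.H4.FP.Nd
import Pool.Agent.H4.FP.Bool2

/-!
Module MAIN: Frankl → Poonen and the equivalence.
-/

set_option autoImplicit false

namespace Pool.Agent.H4.FP

theorem frankl_poonen (hF : Frankl) : Poonen := by
  intro A hne hA hsep hpow
  by_contra hcon
  push Not at hcon
  apply hpow
  refine boolean_of_good ?_ ?_ A hne hA hsep ?_
  · intro B hB hf z hz V hVB hV
    exact good_of_frankl hF B hB hf z hz V hVB hV
  · intro B hB hU hf
    exact (tight_facts hF B hB hU hf).2
  · intro x
    by_cases hx : x ∈ A.sup id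
    · exact hcon x hx
    · rw [freq_eq_zero A x hx]; omega

theorem main_tfae : List.TFAE [Frankl, Poonen, Weak] := by
  tfae_have 1 → 2 := frankl_poonen
  tfae_have 2 → 3 := poonen_weak
  tfae_have 3 → 1 := weak_frankl
  tfae_finish

end Pool.Agent.H4.FP
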