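import Pool.Agent.H4.FP.Defs
import Pool.Agent.H4.FP.EngA

/-!
Module SF (about 150 lines): the family SS B z d = Son ∪ Soff.
M = number of members of B with z = number without z; N = 2 M = |B|.
`sum_son`, `sum_soff`: sum over Fintype.piFinset of a function of one coordinate = M^(d-1) * (sum over the factor).
`central`: for d = 1 + κ M and 2 freq B x = |B|, ∅ ∈ B, i : Fin d:
  Σ_{i'} Σ_{w ∈ SS, w i' = ∅} chi x (w i) + κ Σ_{w ∈ Son} chi x (w i) = - M^(d-1).
 A w in SS with w i' = ∅ is in Soff (z ∉ ∅).  i' = i: number of such w is M^(d-1), each has chi = -1.  i' ≠ i: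
 the sum is M^(d-2) * c0, c0 = Σ_{Z ∈ B, z ∉ Z} chi x Z.  Son: M^(d-1) * c1, c1 = Σ_{Z ∈ B, z ∈ Z} chi x Z, c0 + c1 = 2 freq - |B| = 0.
 Total -M^(d-1) + (d-1) M^(d-2) c0 + κ M^(d-1) c1 = -M^(d-1) + M^(d-2) c0 (d - 1 - κ M) (for d = 1, i.e. κ = 0, there is no i' ≠ i).
-/

set_option autoImplicit false

namespace Pool.Agent.H4.FP

theorem sf_mem_son (B : Finset (Finset ℕ)) (z d : ℕ) (w : Fin d → Finset ℕ) :
    w ∈ Son B z d ↔ ∀ i, w i ∈ B ∧ z ∈ w i := by
  unfold Son
  rw [Fintype.mem_piFinset]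
  exact forall_congr' fun i => Finset.mem_filter

theorem sf_mem_soff (B : Finset (Finset ℕ)) (z d : ℕ) (w : Fin d → Finset ℕ) :
    w ∈ Soff B z d ↔ ∀ i, w i ∈ B ∧ z ∉ w i := by
  unfold Soff
  rw [Fintype.mem_piFinset]
  exact forall_congr' fun i => Finset.mem_filter

theorem sf_mem_ss (B : Finset (Finset ℕ)) (z d : ℕ) (w : Fin d → Finset ℕ) :
    w ∈ SS B z d ↔ w ∈ Son B z d ∨ w ∈ Soff B z d := by
  unfold SS
  exact Finset.mem_union

theorem sf_ss_mem (B : Finset (Finset ℕ)) (z d : ℕ) (w : Fin d → Finset ℕ)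
    (hw : w ∈ SS B z d) (i : Fin d) : w i ∈ B := by
  rw [sf_mem_ss, sf_mem_son, sf_mem_soff] at hw
  rcases hw with h | h
  · exact (h i).1
  · exact (h i).1

theorem disjoint_son_soff (B : Finset (Finset ℕ)) (z d : ℕ) (hd : 0 < d) :
    Disjoint (Son B z d) (Soff B z d) := by
  rw [Finset.disjoint_left]
  intro w h1 h2
  rw [sf_mem_son] at h1
  rw [sf_mem_soff] at h2
  exact (h2 ⟨0, hd⟩).2 (h1 ⟨0, hd⟩).2

theorem card_son (B : Finset (Finset ℕ)) (z d : ℕ) :
    (Son B z d).card = (B.filter (fun Z => z ∈ Z)).card ^ d := by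
  unfold Son
  rw [Fintype.card_piFinset, Finset.prod_const, Finset.card_univ, Fintype.card_fin]

theorem card_soff (B : Finset (Finset ℕ)) (z d : ℕ) :
    (Soff B z d).card = (B.filter (fun Z => z ∉ Z)).card ^ d := by
  unfold Soff
  rw [Fintype.card_piFinset, Finset.prod_const, Finset.card_univ, Fintype.card_fin]

theorem son_sup (B : Finset (Finset ℕ)) (hB : UC B) (z d : ℕ) :
    ∀ u ∈ Son B z d, ∀ v ∈ Son B z d, (fun i => u i ∪ v i) ∈ Son B z d := by
  intro u hu v hv
  rw [sf_mem_son] at hu hv ⊢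
  exact fun i => ⟨hB _ (hu i).1 _ (hv i).1, Finset.mem_union_left _ (hu i).2⟩

theorem ss_sup (B : Finset (Finset ℕ)) (hB : UC B) (z d : ℕ) :
    ∀ u ∈ SS B z d, ∀ v ∈ SS B z d, (fun i => u i ∪ v i) ∈ SS B z d := by
  intro u hu v hv
  rw [sf_mem_ss] at hu hv ⊢
  rcases hu with hu | hu
  · left
    rw [sf_mem_son] at hu ⊢
    have hv' : ∀ i, v i ∈ B := fun i => sf_ss_mem B z d v ((sf_mem_ss B z d v).2 hv) i
    exact fun i => ⟨hB _ (hu i).1 _ (hv' i), Finset.mem_union_left _ (hu i).2⟩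
  · rcases hv with hv | hv
    · left
      rw [sf_mem_son] at hv ⊢
      rw [sf_mem_soff] at hu
      exact fun i => ⟨hB _ (hu i).1 _ (hv i).1, Finset.mem_union_right _ (hv i).2⟩
    · right
      rw [sf_mem_soff] at hu hv ⊢
      refine fun i => ⟨hB _ (hu i).1 _ (hv i).1, fun h => ?_⟩
      rcases Finset.mem_union.1 h with h | h
      · exact (hu i).2 h
      · exact (hv i).2 h

/-- `Soff` is a down-set of `SS` -/
theorem soff_down (B : Finset (Finset ℕ)) (z d : ℕ) :
    ∀ v ∈ Soff B z d, ∀ u ∈ SS B z d, (∀ i, u i ⊆ v i) → u ∈ Soff B z d := by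
  intro v hv u hu huv
  rw [sf_mem_soff] at hv ⊢
  exact fun i => ⟨sf_ss_mem B z d u hu i, fun h => (hv i).2 (huv i h)⟩

theorem sf_sum_chi (C : Finset (Finset ℕ)) (x : ℕ) :
    ∑ Z ∈ C, chi x Z = 2 * ((C.filter (fun Z => x ∈ Z)).card : ℝ) - C.card := by
  unfold chi
  rw [Finset.sum_ite, Finset.sum_const, Finset.sum_const, nsmul_eq_mul, nsmul_eq_mul]
  have h1 := Finset.card_filter_add_card_filter_not (s := C) (fun Z => x ∈ Z)
  have h2 : ((C.filter (fun Z => x ∈ Z)).card : ℝ) + ((C.filter (fun Z => ¬ x ∈ Z)).card : ℝ) =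
      (C.card : ℝ) := by exact_mod_cast h1
  linarith

theorem sum_chi_members (B : Finset (Finset ℕ)) (x : ℕ) :
    ∑ Z ∈ B, chi x Z = 2 * (freq B x : ℝ) - B.card := sf_sum_chi B x

theorem sf_sum_son (B : Finset (Finset ℕ)) (z d M : ℕ)
    (h1 : (B.filter (fun Z => z ∈ Z)).card = M) (f : Finset ℕ → ℝ) (i : Fin d) :
    ∑ w ∈ Son B z d, f (w i) =
      (M : ℝ) ^ (d - 1) * ∑ Z ∈ B.filter (fun Z => z ∈ Z), f Z := by
  unfold Son
  rw [sum_box, Finset.prod_const, Finset.card_erase_of_mem (Finset.mem_univ _),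
    Finset.card_univ, Fintype.card_fin, h1, mul_comm]

theorem sf_sum_soff (B : Finset (Finset ℕ)) (z d M : ℕ)
    (h0 : (B.filter (fun Z => z ∉ Z)).card = M) (f : Finset ℕ → ℝ) (i : Fin d) :
    ∑ w ∈ Soff B z d, f (w i) =
      (M : ℝ) ^ (d - 1) * ∑ Z ∈ B.filter (fun Z => z ∉ Z), f Z := by
  unfold Soff
  rw [sum_box, Finset.prod_const, Finset.card_erase_of_mem (Finset.mem_univ _),
    Finset.card_univ, Fintype.card_fin, h0, mul_comm]

theorem marginal (B : Finset (Finset ℕ)) (z d M : ℕ) (hd : 0 < d)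
    (h1 : (B.filter (fun Z => z ∈ Z)).card = M) (h0 : (B.filter (fun Z => z ∉ Z)).card = M)
    (x : ℕ) (i : Fin d) :
    ∑ w ∈ SS B z d, chi x (w i) = (M : ℝ) ^ (d - 1) * (2 * (freq B x : ℝ) - B.card) := by
  unfold SS
  rw [Finset.sum_union (disjoint_son_soff B z d hd), sf_sum_son B z d M h1,
    sf_sum_soff B z d M h0, ← mul_add, ← sum_chi_members B x]
  congr 1
  exact Finset.sum_filter_add_sum_filter_not B (fun Z => z ∈ Z) (fun Z => chi x Z)

theorem sf_filter (B : Finset (Finset ℕ)) (z d : ℕ) (hemp : ∅ ∈ B) (i' : Fin d) :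
    (SS B z d).filter (fun w => w i' = ∅) =
      Fintype.piFinset (fun j => if j = i' then {∅} else B.filter (fun Z => z ∉ Z)) := by
  ext w
  rw [Finset.mem_filter, Fintype.mem_piFinset]
  constructor
  · rintro ⟨h1, h2⟩ j
    have h3 : w ∈ Soff B z d := by
      rw [sf_mem_ss] at h1
      rcases h1 with h1 | h1
      · rw [sf_mem_son] at h1
        have := (h1 i').2
        rw [h2] at this
        exact absurd this (Finset.notMem_empty z)
      · exact h1
    by_cases hj : j = i'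
    · rw [if_pos hj, Finset.mem_singleton, hj]
      exact h2
    · rw [if_neg hj, Finset.mem_filter]
      exact (sf_mem_soff B z d w).1 h3 j
  · intro h
    have h2 : w i' = ∅ := by
      have := h i'
      rwa [if_pos rfl, Finset.mem_singleton] at this
    refine ⟨?_, h2⟩
    rw [sf_mem_ss]
    right
    rw [sf_mem_soff]
    intro j
    by_cases hj : j = i'
    · rw [hj, h2]
      exact ⟨hemp, Finset.notMem_empty z⟩
    · have := h j
      rwa [if_neg hj, Finset.mem_filter] at this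

theorem central (B : Finset (Finset ℕ)) (z d M κ : ℕ) (hd : d = 1 + κ * M) (hM : 0 < M)
    (h1 : (B.filter (fun Z => z ∈ Z)).card = M) (h0 : (B.filter (fun Z => z ∉ Z)).card = M)
    (hemp : ∅ ∈ B) (x : ℕ) (hx : 2 * freq B x = B.card) (i : Fin d) :
    ∑ i' : Fin d, ∑ w ∈ (SS B z d).filter (fun w => w i' = ∅), chi x (w i)
      + (κ : ℝ) * ∑ w ∈ Son B z d, chi x (w i) = - (M : ℝ) ^ (d - 1) := by
  set c0 : ℝ := ∑ Z ∈ B.filter (fun Z => z ∉ Z), chi x Z with hc0
  set c1 : ℝ := ∑ Z ∈ B.filter (fun Z => z ∈ Z), chi x Z with hc1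
  have hc : c1 + c0 = 0 := by
    have h2 := Finset.sum_filter_add_sum_filter_not B (fun Z => z ∈ Z) (fun Z => chi x Z)
    rw [sum_chi_members B x] at h2
    have h3 : 2 * (freq B x : ℝ) = (B.card : ℝ) := by exact_mod_cast hx
    rw [h3, sub_self] at h2
    exact h2
  rw [sf_sum_son B z d M h1, ← hc1]
  have hself : ∑ w ∈ (SS B z d).filter (fun w => w i = ∅), chi x (w i) = - (M : ℝ) ^ (d - 1) := by
    rw [sf_filter B z d hemp, sum_box, if_pos rfl, Finset.sum_singleton,
      Finset.prod_congr rfl (g := fun _ => (M : ℝ)), Finset.prod_const,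
      Finset.card_erase_of_mem (Finset.mem_univ _), Finset.card_univ, Fintype.card_fin]
    · unfold chi
      rw [if_neg (Finset.notMem_empty x)]
      ring
    · intro j hj
      rw [if_neg (Finset.ne_of_mem_erase hj), h0]
  have hother : ∀ i' : Fin d, i' ≠ i →
      ∑ w ∈ (SS B z d).filter (fun w => w i' = ∅), chi x (w i) = (M : ℝ) ^ (d - 2) * c0 := by
    intro i' hi'
    rw [sf_filter B z d hemp, sum_box, if_neg (Ne.symm hi'), ← hc0,
      ← Finset.mul_prod_erase _ _ (Finset.mem_erase.2 ⟨hi', Finset.mem_univ i'⟩), if_pos rfl,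
      Finset.prod_congr rfl (g := fun _ => (M : ℝ)), Finset.prod_const,
      Finset.card_erase_of_mem (Finset.mem_erase.2 ⟨hi', Finset.mem_univ i'⟩),
      Finset.card_erase_of_mem (Finset.mem_univ _), Finset.card_univ, Fintype.card_fin,
      Finset.card_singleton, Nat.cast_one, one_mul, mul_comm]
    · rfl
    · intro j hj
      rw [if_neg (Finset.ne_of_mem_erase hj), h0]
  rw [← Finset.add_sum_erase _ _ (Finset.mem_univ i), hself,
    Finset.sum_congr rfl (fun i' hi' => hother i' (Finset.ne_of_mem_erase hi')),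
    Finset.sum_const, Finset.card_erase_of_mem (Finset.mem_univ _), Finset.card_univ,
    Fintype.card_fin, nsmul_eq_mul]
  have hd1 : d - 1 = κ * M := by omega
  have hc1' : c1 = -c0 := by linarith
  rw [hc1']
  rcases Nat.eq_zero_or_pos κ with hκ | hκ
  · rw [hd1, hκ, zero_mul]
    simp
  · have hpos : 0 < κ * M := Nat.mul_pos hκ hM
    have h3 : (M : ℝ) ^ (d - 1) = M * (M : ℝ) ^ (d - 2) := by
      rw [← pow_succ']
      congr 1
      omega
    have h4 : ((d - 1 : ℕ) : ℝ) = κ * M := by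
      rw [hd1]
      push_cast
      ring
    rw [h4, h3]
    ring

end Pool.Agent.H4.FP
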