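import Pool.Agent.H4.FP.Defs
import Pool.Agent.H4.FP.Amp
import Pool.Agent.H4.FP.Down
import Pool.Agent.H4.FP.SF

/-!
Module TAG (about 80 lines): the second tag D1.
Apply `amplify` with G1 = members with z, G0 = members without z, V.  For d ≥ 1 let m be given,
S = SS B z d, VV = {w ∈ S : m ≤ #{i : w i ∈ V}}, E = S \ VV is a down-set of S for the pointwise inclusion order (V is an up-set of B; entries of w ∈ S are in B).
α = |Soff \ VV| ≤ r^d M^d, β = |Son ∩ VV| ≤ r^d M^d.  |E| = M^d + α - β.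
`down_interp` (order of Fin d → Finset ℕ is pointwise ⊆) gives D1 nested with E, of size M^d.
|D1 \ E| + |E \ D1| = | |E| - M^d | = |α - β| ≤ max(α,β) as they are nested, E \ Son = Soff \ VV, Son \ E = Son ∩ VV:
|D1 \ Son| ≤ |D1 \ E| + α ≤ 2 r^d M^d, |Son \ D1| ≤ |E \ D1| + β ≤ 2 r^d M^d.
-/

set_option autoImplicit false

namespace Pool.Agent.H4.FP

theorem exists_tag (B : Finset (Finset ℕ)) (z M : ℕ)
    (h1 : (B.filter (fun Z => z ∈ Z)).card = M) (h0 : (B.filter (fun Z => z ∉ Z)).card = M)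
    (V : Finset (Finset ℕ)) (hVB : V ⊆ B) (hV : ∀ X ∈ V, ∀ Y ∈ B, X ⊆ Y → Y ∈ V)
    (hlt : (V.filter (fun Z => z ∈ Z)).card < (V.filter (fun Z => z ∉ Z)).card) :
    ∃ r : ℝ, 0 < r ∧ r < 1 ∧ ∀ d : ℕ, 0 < d → ∃ D1 : Finset (Fin d → Finset ℕ),
      D1 ⊆ SS B z d ∧ (∀ v ∈ D1, ∀ u ∈ SS B z d, (∀ i, u i ⊆ v i) → u ∈ D1) ∧
      D1.card = M ^ d ∧
      ((D1 \ Son B z d).card : ℝ) ≤ 2 * (r ^ d * (M : ℝ) ^ d) ∧
      ((Son B z d \ D1).card : ℝ) ≤ 2 * (r ^ d * (M : ℝ) ^ d) := by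
  classical
  have hf1 : (B.filter (fun Z => z ∈ Z)).filter (fun X => X ∈ V) = V.filter (fun Z => z ∈ Z) := by
    ext X
    simp only [Finset.mem_filter]
    exact ⟨fun h => ⟨h.2, h.1.2⟩, fun h => ⟨⟨hVB h.1, h.2⟩, h.1⟩⟩
  have hf0 : (B.filter (fun Z => z ∉ Z)).filter (fun X => X ∈ V) = V.filter (fun Z => z ∉ Z) := by
    ext X
    simp only [Finset.mem_filter]
    exact ⟨fun h => ⟨h.2, h.1.2⟩, fun h => ⟨⟨hVB h.1, h.2⟩, h.1⟩⟩
  obtain ⟨r, hr0, hr1, H⟩ := amplify (B.filter (fun Z => z ∈ Z)) (B.filter (fun Z => z ∉ Z))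
    (fun X => X ∈ V) (h1.trans h0.symm) (by rw [hf1, hf0]; exact hlt)
  refine ⟨r, hr0, hr1, fun d hd => ?_⟩
  obtain ⟨m, A1, A2⟩ := H d
  rw [h1] at A1 A2
  set nV : (Fin d → Finset ℕ) → ℕ := fun w => (Finset.univ.filter (fun i => w i ∈ V)).card with hnV
  set E := (SS B z d).filter (fun w => nV w < m) with hE
  have hSB : ∀ w ∈ SS B z d, ∀ i, w i ∈ B := by
    intro w hw i
    rcases Finset.mem_union.mp hw with h | h
    · exact (Finset.mem_filter.mp (Fintype.mem_piFinset.mp h i)).1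
    · exact (Finset.mem_filter.mp (Fintype.mem_piFinset.mp h i)).1
  have hdown : ∀ v ∈ E, ∀ u ∈ SS B z d, u ≤ v → u ∈ E := by
    intro v hv u hu huv
    obtain ⟨hv1, hv2⟩ := Finset.mem_filter.mp hv
    refine Finset.mem_filter.mpr ⟨hu, lt_of_le_of_lt ?_ hv2⟩
    apply Finset.card_le_card
    intro i hi
    rw [Finset.mem_filter] at hi ⊢
    exact ⟨Finset.mem_univ _, hV _ hi.2 _ (hSB v hv1 i) (huv i)⟩
  have hcSon : (Son B z d).card = M ^ d := by rw [card_son, h1]
  obtain ⟨D1, hD1, hD2, hD3, hD4⟩ := down_interp (SS B z d) E (Finset.filter_subset _ _) hdown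
    (M ^ d) (by rw [← hcSon]; exact Finset.card_le_card Finset.subset_union_left)
  have hcomm : (D1 \ Son B z d).card = (Son B z d \ D1).card :=
    Finset.card_sdiff_comm (hD3.trans hcSon.symm)
  have hrM : 0 ≤ r ^ d * (M : ℝ) ^ d := by positivity
  have key : ((D1 \ Son B z d).card : ℝ) ≤ r ^ d * (M : ℝ) ^ d := by
    rcases hD4 with h | h
    · rw [hcomm]
      refine le_trans ?_ A1
      have : (Son B z d \ D1).card ≤ ((Fintype.piFinset fun _ : Fin d =>
          B.filter (fun Z => z ∈ Z)).filter (fun w => m ≤ (Finset.univ.filter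
            (fun i => w i ∈ V)).card)).card := by
        apply Finset.card_le_card
        intro w hw
        obtain ⟨hw1, hw2⟩ := Finset.mem_sdiff.mp hw
        refine Finset.mem_filter.mpr ⟨hw1, ?_⟩
        by_contra hlt'
        exact hw2 (h (Finset.mem_filter.mpr ⟨Finset.mem_union_left _ hw1, not_le.mp hlt'⟩))
      exact_mod_cast this
    · refine le_trans ?_ A2
      have : (D1 \ Son B z d).card ≤ ((Fintype.piFinset fun _ : Fin d =>
          B.filter (fun Z => z ∉ Z)).filter (fun w => (Finset.univ.filter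
            (fun i => w i ∈ V)).card < m)).card := by
        apply Finset.card_le_card
        intro w hw
        obtain ⟨hw1, hw2⟩ := Finset.mem_sdiff.mp hw
        obtain ⟨hw3, hw4⟩ := Finset.mem_filter.mp (h hw1)
        refine Finset.mem_filter.mpr ⟨?_, hw4⟩
        rcases Finset.mem_union.mp hw3 with h' | h'
        · exact absurd h' hw2
        · exact h'
      exact_mod_cast this
  refine ⟨D1, hD1, fun v hv u hu huv => hD2 v hv u hu huv, hD3, by linarith, ?_⟩
  rw [← hcomm]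
  linarith

end Pool.Agent.H4.FP
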