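import Pool.Agent.H4.FP.Frk
import Pool.Agent.H4.FP.Code
import Pool.Agent.H4.FP.Asy
import Pool.Agent.H4.FP.Tag
import Pool.Agent.H4.FP.EngC

/-!
Module ND: assembly of part (1).
-/

set_option autoImplicit false

namespace Pool.Agent.H4.FP

theorem sum_sign {Ω : Type} (F : Finset Ω) (P : Ω → Prop) [DecidablePred P] :
    ∑ W ∈ F, (if P W then (1 : ℝ) else -1) = 2 * ((F.filter P).card : ℝ) - F.card := by
  have h1 : ∀ W, (if P W then (1 : ℝ) else -1) = 2 * (if P W then (1 : ℝ) else 0) - 1 := by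
    intro W; split_ifs <;> norm_num
  simp only [h1, Finset.sum_sub_distrib, ← Finset.mul_sum, Finset.sum_boole]
  simp

/-- every point in exactly half of the members is dominating -/
theorem good_of_frankl (hF : Frankl) (B : Finset (Finset ℕ)) (hB : UC B)
    (hf : ∀ x, 2 * freq B x ≤ B.card) (z : ℕ) (hz : 2 * freq B z = B.card)
    (V : Finset (Finset ℕ)) (hVB : V ⊆ B) (hV : ∀ X ∈ V, ∀ Y ∈ B, X ⊆ Y → Y ∈ V) :
    (V.filter (fun Z => z ∉ Z)).card ≤ (V.filter (fun Z => z ∈ Z)).card := by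
  classical
  by_contra hcon
  push Not at hcon
  obtain ⟨M, h1⟩ : ∃ M, (B.filter (fun Z => z ∈ Z)).card = M := ⟨_, rfl⟩
  have hN : B.card = 2 * M := by rw [← hz, freq, h1]
  have h0 : (B.filter (fun Z => z ∉ Z)).card = M := by
    have := Finset.card_filter_add_card_filter_not (s := B) (fun Z => z ∈ Z)
    omega
  obtain ⟨Z0, hZ0⟩ := Finset.card_pos.mp (lt_of_le_of_lt (Nat.zero_le _) hcon)
  have hZ0B : Z0 ∈ B := hVB (Finset.mem_filter.mp hZ0).1
  have hM0 : 0 < M := by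
    have := Finset.card_pos.mpr ⟨Z0, hZ0B⟩
    omega
  have hU : (B.sup id).Nonempty := by
    have : 0 < (B.filter (fun Z => z ∈ Z)).card := by omega
    obtain ⟨Z1, hZ1⟩ := Finset.card_pos.mp this
    rw [Finset.mem_filter] at hZ1
    exact ⟨z, (Finset.le_sup (f := id) hZ1.1) hZ1.2⟩
  obtain ⟨hemp, -⟩ := tight_facts hF B hB hU hf
  obtain ⟨r, hr0, hr1, htag⟩ := exists_tag B z M h1 h0 V hVB hV hcon
  obtain ⟨κ, hκ⟩ := exists_params M hM0 r hr0 hr1
  obtain ⟨d, hd⟩ : ∃ d, d = 1 + κ * M := ⟨_, rfl⟩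
  obtain ⟨Q, hQ⟩ : ∃ Q, Q = 3 * d * (d + κ) := ⟨_, rfl⟩
  obtain ⟨hq1, hq2, hq3, hq4⟩ := hκ d Q hd hQ
  have hd0 : 0 < d := by omega
  obtain ⟨D1, hD1S, hD1d, hD1c, hD1a, hD1b⟩ := htag d hd0
  have hcardM : Fintype.card ((Fin 3 × Fin d) × (Fin d ⊕ Fin κ)) = Q := by
    simp [hQ]
  have hcardK : Fintype.card (Fin 3 × Fin d) = 3 * d := by simp
  obtain ⟨p, hp⟩ := exists_pattern ((Fin 3 × Fin d) × (Fin d ⊕ Fin κ)) d hd0
    (by rw [hcardM]; exact hq1)
  have hdis := disjoint_son_soff B z d hd0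
  -- the data
  set S : Finset (Fin d → Finset ℕ) := SS B z d with hSdef
  set D : Bool → Finset (Fin d → Finset ℕ) := fun b => if b then D1 else Soff B z d with hDdef
  set I : (Fin 3 × Fin d) × (Fin d ⊕ Fin κ) → Finset (Fin d → Finset ℕ) :=
    fun m => Sum.elim (fun i' => (SS B z d).filter (fun w => w i' = ∅)) (fun _ => Son B z d) m.2
    with hIdef
  set δ : ℝ := 4 * r ^ d * (M : ℝ) ^ d with hδ
  have hrM : 0 ≤ r ^ d * (M : ℝ) ^ d := by positivity
  have hSonS : Son B z d ⊆ S := Finset.subset_union_left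
  have hSoffS : Soff B z d ⊆ S := Finset.subset_union_right
  have hs : Setup S D (Prod.fst : (Fin 3 × Fin d) × (Fin d ⊕ Fin κ) → Fin 3 × Fin d) I p
      (M ^ d) δ := by
    refine ⟨by positivity, ?_, ?_, ?_, ?_, ?_, ?_, ?_⟩
    · rw [hSdef, SS, Finset.card_union_of_disjoint hdis, card_son, card_soff, h1, h0]
      ring
    · intro b
      cases b
      · simpa [hDdef] using hSoffS
      · simpa [hDdef] using hD1S
    · intro b
      cases b
      · simp [hDdef, card_soff, h0]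
      · simp [hDdef, hD1c]
    · have hsub : D false ∩ D true ⊆ D1 \ Son B z d := by
        intro w hw
        simp only [hDdef, Finset.mem_inter] at hw
        rw [Finset.mem_sdiff]
        refine ⟨by simpa using hw.2, fun hw2 => ?_⟩
        exact Finset.disjoint_left.mp hdis hw2 (by simpa using hw.1)
      calc ((D false ∩ D true).card : ℝ) ≤ ((D1 \ Son B z d).card : ℝ) := by
            exact_mod_cast Finset.card_le_card hsub
        _ ≤ 2 * (r ^ d * (M : ℝ) ^ d) := hD1a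
        _ ≤ δ := by rw [hδ]; nlinarith
    · intro m
      rcases m with ⟨k, i' | c⟩
      · intro w hw
        simp only [hIdef, Sum.elim_inl, Finset.mem_filter] at hw
        exact hw.1
      · simpa [hIdef] using hSonS
    · intro m m' s s' hne
      obtain ⟨j, hj1, hj2, hj3⟩ := hp m m' s s' hne m.1 m'.1
      exact ⟨j, hj1, hj2, hj3⟩
    · rw [hcardK]; omega
  set F := fam S D (Prod.fst : (Fin 3 × Fin d) × (Fin d ⊕ Fin κ) → Fin 3 × Fin d) I p with hFdef
  have hcl : ∀ u ∈ F, ∀ v ∈ F, (fun k i => u k i ∪ v k i) ∈ F := by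
    refine fam_op (fun (u v : Fin d → Finset ℕ) (i : Fin d) => u i ∪ v i) ?_ ?_ ?_
    · exact ss_sup B hB z d
    · intro b u hu v hv huv
      cases b
      · simp only [hDdef, Bool.false_eq_true, if_false] at huv ⊢
        exact ⟨soff_down B z d _ huv u hu (fun i => Finset.subset_union_left),
          soff_down B z d _ huv v hv (fun i => Finset.subset_union_right)⟩
      · simp only [hDdef, if_true] at huv ⊢
        exact ⟨hD1d _ huv u hu (fun i => Finset.subset_union_left),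
          hD1d _ huv v hv (fun i => Finset.subset_union_right)⟩
    · intro m u hu v hv
      rcases m with ⟨k, i' | c⟩
      · simp only [hIdef, Sum.elim_inl, Finset.mem_filter] at hu hv ⊢
        refine ⟨ss_sup B hB z d u hu.1 v hv.1, ?_⟩
        rw [hu.2, hv.2]; rfl
      · simp only [hIdef, Sum.elim_inr] at hu hv ⊢
        exact son_sup B hB z d u hu v hv
  have hFcard : 2 ≤ F.card := by
    refine fam_card hs ?_
    rw [hcardM, hcardK]; exact hq4
  obtain ⟨k, i, x, ⟨w0, hw0, hxw0⟩, hle⟩ := frankl_pi hF F hcl hFcard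
  have hsum : 0 ≤ ∑ W ∈ F, chi x (W k i) := by
    have := sum_sign F (fun W => x ∈ W k i)
    unfold chi
    rw [this]
    have h3 : (F.card : ℝ) ≤ 2 * ((F.filter (fun W => x ∈ W k i)).card : ℝ) := by
      exact_mod_cast hle
    linarith
  have hMpos : (0 : ℝ) < M := by exact_mod_cast hM0
  have hfabs : ∀ w : Fin d → Finset ℕ, |chi x (w i)| ≤ 1 := by
    intro w; unfold chi; split_ifs <;> norm_num
  have hdpow : (M : ℝ) ^ d = M * (M : ℝ) ^ (d - 1) := by
    obtain ⟨e, he⟩ : ∃ e, d = e + 1 := ⟨d - 1, by omega⟩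
    rw [he, Nat.add_sub_cancel]; ring
  have hmarg := marginal B z d M hd0 h1 h0 x i
  have hcastN : (B.card : ℝ) = 2 * M := by rw [hN]; push_cast; ring
  have hK1 : (3 * d - 1) + 1 = 3 * d := by omega
  by_cases hx : 2 * freq B x = B.card
  · -- tight coordinates
    have hSf : ∑ w ∈ S, chi x (w i) = 0 := by
      rw [hSdef, hmarg]
      have : (2 * (freq B x : ℝ)) = B.card := by exact_mod_cast hx
      rw [this]; ring
    have hsplit : ∑ w ∈ S, chi x (w i)
        = ∑ w ∈ Son B z d, chi x (w i) + ∑ w ∈ Soff B z d, chi x (w i) := by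
      rw [hSdef, SS, Finset.sum_union hdis]
    have habs : ∀ E : Finset (Fin d → Finset ℕ), |∑ w ∈ E, chi x (w i)| ≤ E.card := by
      intro E
      calc |∑ w ∈ E, chi x (w i)| ≤ ∑ w ∈ E, |chi x (w i)| := Finset.abs_sum_le_sum_abs _ _
        _ ≤ ∑ w ∈ E, 1 := Finset.sum_le_sum (fun w _ => hfabs w)
        _ = E.card := by simp
    have ht : |∑ w ∈ D false, chi x (w i) + ∑ w ∈ D true, chi x (w i)| ≤ δ := by
      have e1 : ∑ w ∈ D false, chi x (w i) = ∑ w ∈ Soff B z d, chi x (w i) := by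
        simp [hDdef]
      have e2 : ∑ w ∈ D true, chi x (w i) = ∑ w ∈ D1, chi x (w i) := by
        simp [hDdef]
      have e3 : ∑ w ∈ D1, chi x (w i) + ∑ w ∈ (Son B z d \ D1), chi x (w i)
          = ∑ w ∈ Son B z d, chi x (w i) + ∑ w ∈ (D1 \ Son B z d), chi x (w i) := by
        have a1 := Finset.sum_inter_add_sum_sdiff D1 (Son B z d) (fun w => chi x (w i))
        have a2 := Finset.sum_inter_add_sum_sdiff (Son B z d) D1 (fun w => chi x (w i))
        rw [Finset.inter_comm] at a2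
        linarith
      have e4 : ∑ w ∈ D false, chi x (w i) + ∑ w ∈ D true, chi x (w i)
          = ∑ w ∈ (D1 \ Son B z d), chi x (w i) - ∑ w ∈ (Son B z d \ D1), chi x (w i) := by
        rw [e1, e2]; linarith
      rw [e4]
      calc |∑ w ∈ (D1 \ Son B z d), chi x (w i) - ∑ w ∈ (Son B z d \ D1), chi x (w i)|
          ≤ |∑ w ∈ (D1 \ Son B z d), chi x (w i)| + |∑ w ∈ (Son B z d \ D1), chi x (w i)| :=
            abs_sub _ _
        _ ≤ 2 * (r ^ d * (M : ℝ) ^ d) + 2 * (r ^ d * (M : ℝ) ^ d) :=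
            add_le_add ((habs _).trans hD1a) ((habs _).trans hD1b)
        _ = δ := by rw [hδ]; ring
    have hbound := fam_tight hs (fun w => chi x (w i)) hfabs hSf ht k
    have hcen := central B z d M κ hd hM0 h1 h0 hemp x hx i
    have hIsum : ∑ m ∈ Finset.univ.filter
          (fun m : (Fin 3 × Fin d) × (Fin d ⊕ Fin κ) => m.1 = k), ∑ w ∈ I m, chi x (w i)
        = - (M : ℝ) ^ (d - 1) := by
      rw [← hcen, Finset.sum_filter, Fintype.sum_prod_type]
      have hone : ∀ k' : Fin 3 × Fin d, (∑ y : Fin d ⊕ Fin κ,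
          if (k', y).1 = k then ∑ w ∈ I (k', y), chi x (w i) else 0)
          = if k' = k then ∑ y : Fin d ⊕ Fin κ, ∑ w ∈ I (k', y), chi x (w i) else 0 := by
        intro k'
        by_cases hk : k' = k
        · simp [hk]
        · simp [hk]
      rw [Finset.sum_congr rfl (fun k' _ => hone k'), Finset.sum_ite_eq' Finset.univ k]
      simp only [Finset.mem_univ, if_true, Fintype.sum_sum_type]
      simp [hIdef]
    rw [hIsum, hcardM, hcardK] at hbound
    have hneg : 2 * (((M ^ d : ℕ) : ℝ)) ^ (3 * d - 1) * -(M : ℝ) ^ (d - 1)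
        + (2 * (Q : ℝ) + 16 * (Q : ℝ) ^ 2) * δ * (((M ^ d : ℕ) : ℝ)) ^ (3 * d - 1) < 0 := by
      have hc : 0 < 2 * (((M ^ d : ℕ) : ℝ)) ^ (3 * d - 1) * (M : ℝ) ^ (d - 1) := by positivity
      have he : 2 * (((M ^ d : ℕ) : ℝ)) ^ (3 * d - 1) * -(M : ℝ) ^ (d - 1)
        + (2 * (Q : ℝ) + 16 * (Q : ℝ) ^ 2) * δ * (((M ^ d : ℕ) : ℝ)) ^ (3 * d - 1)
        = (2 * (((M ^ d : ℕ) : ℝ)) ^ (3 * d - 1) * (M : ℝ) ^ (d - 1)) *
          (((Q : ℝ) + 8 * (Q : ℝ) ^ 2) * (4 * r ^ d) * (M : ℝ) - 1) := by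
        rw [hδ, hdpow]; ring
      rw [he]
      exact mul_neg_of_pos_of_neg hc (by linarith)
    linarith
  · -- slack coordinates
    have hlt : 2 * freq B x + 1 ≤ B.card := by
      have := hf x
      omega
    have hlt' : 2 * (freq B x : ℝ) - B.card ≤ -1 := by
      have : (2 * (freq B x : ℝ) + 1) ≤ B.card := by exact_mod_cast hlt
      linarith
    have hbound := fam_slack hs (fun w => chi x (w i)) hfabs k
    rw [hcardM, hcardK, hmarg] at hbound
    have hp1 : (4 * (Q : ℝ) * M) < 2 ^ (3 * d - 1) := by exact_mod_cast hq3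
    have hneg : (2 * (((M ^ d : ℕ) : ℝ))) ^ (3 * d - 1) *
          ((M : ℝ) ^ (d - 1) * (2 * (freq B x : ℝ) - B.card))
        + 4 * (Q : ℝ) * (((M ^ d : ℕ) : ℝ)) ^ (3 * d) < 0 := by
      have hc : 0 < (((M ^ d : ℕ) : ℝ)) ^ (3 * d - 1) * (M : ℝ) ^ (d - 1) := by positivity
      have e1 : (((M ^ d : ℕ) : ℝ)) ^ (3 * d)
          = (((M ^ d : ℕ) : ℝ)) ^ (3 * d - 1) * ((M : ℝ) ^ (d - 1)) * M := by
        conv_lhs => rw [← hK1, pow_succ]
        push_cast
        rw [hdpow]; ring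
      have e2 : (2 * (((M ^ d : ℕ) : ℝ))) ^ (3 * d - 1) *
          ((M : ℝ) ^ (d - 1) * (2 * (freq B x : ℝ) - B.card))
          ≤ (2 * (((M ^ d : ℕ) : ℝ))) ^ (3 * d - 1) * ((M : ℝ) ^ (d - 1) * (-1)) := by
        have : 0 ≤ (M : ℝ) ^ (d - 1) := by positivity
        have h5 : 0 ≤ (2 * (((M ^ d : ℕ) : ℝ))) ^ (3 * d - 1) := by positivity
        exact mul_le_mul_of_nonneg_left (mul_le_mul_of_nonneg_left hlt' this) h5
      have e3 : (2 * (((M ^ d : ℕ) : ℝ))) ^ (3 * d - 1) * ((M : ℝ) ^ (d - 1) * (-1))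
          + 4 * (Q : ℝ) * (((M ^ d : ℕ) : ℝ)) ^ (3 * d)
          = ((((M ^ d : ℕ) : ℝ)) ^ (3 * d - 1) * (M : ℝ) ^ (d - 1)) *
            (4 * (Q : ℝ) * M - 2 ^ (3 * d - 1)) := by
        rw [e1, mul_pow]; ring
      have e4 := mul_neg_of_pos_of_neg hc (sub_neg.mpr hp1)
      linarith
    linarith

end Pool.Agent.H4.FP
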